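import Pool.Agent.RTY.Defs

/-!
# RTY, base structure: the potential

`pr Q h` = probability that an odd number of `h` bits is 1 (`q = 1 / Q`). `F s b l B J x y` = bound for
the expected contribution of the pair `(x, y)` (node of `y` at level `J`, private levels `> B`) after the
bits of the levels `< l` have been chosen: the pair contributes at the end 1 if `Wj s J x y ≠ b`, and if
`Wj s J x y = b` it contributes 1/2 (unchanged: `Wj s k x y = b`) or 8 (changed).
-/

set_option autoImplicit false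

namespace Pool.Agent.RTY

open Finset Pool.Agent.RSU Pool.Agent.RTX

variable {k Q : ℕ}

noncomputable def pr (Q h : ℕ) : ℝ := (1 - (1 - 2 / (Q : ℝ)) ^ h) / 2

theorem pr_zero (Q : ℕ) : pr Q 0 = 0 := by simp [pr]

theorem pr_succ (Q h : ℕ) : pr Q (h + 1) =
    (1 - 1 / (Q : ℝ)) * pr Q h + 1 / (Q : ℝ) * (1 - pr Q h) := by
  unfold pr
  ring

noncomputable def F (s : ℕ → Sym2 (Fin k → Fin 2) → Fin Q) (b : Bool) (l B J : ℕ)
    (x y : Fin k → Fin 2) : ℝ :=
  if l ≤ B then 1 - pr Q (J - B) / 4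
  else if l ≤ J then
    (if Wj s l x y = b then (1 - pr Q (J - l)) * ph Q (k - J) + pr Q (J - l)
      else pr Q (J - l) * ph Q (k - J) + (1 - pr Q (J - l)))
  else if Wj s J x y = b then (if Wj s l x y = b then ph Q (k - l) else ps Q (k - l)) else 1

/-- the potential -/
noncomputable def Phi (M : ℕ) (s : ℕ → Sym2 (Fin k → Fin 2) → Fin Q) (l : ℕ) : ℝ := by
  classical
  exact ∑ N ∈ range (M + 1), ∑ t ∈ range (k + 1), ∑ x : Fin M → (Fin k → Fin 2),
    ∑ y : Fin N → (Fin k → Fin 2), ∑ J : Fin N → Fin (k + 1), ∑ B : Fin N → Fin (k + 1),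
      if Cfg t x y (fun j => (J j : ℕ)) (fun j => (B j : ℕ)) then
        ∑ b : Bool, ∏ p : Fin M × Fin N, F s b l (B p.2) (J p.2) (x p.1) (y p.2) else 0

end Pool.Agent.RTY
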