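import Pool.Agent.RTY.BStep

/-!
# RTY, end of the potential argument (model: `Pool/Agent/RTX/BMix.lean`, last part of `BStep.lean`)

`exists_step`: from `cfg_step` by averaging over `u` (exactly as `RTX.exists_step`).
`good2_of_Phi`: `Phi M s k < 1`, all summands are nonnegative, so for every configuration and `b` the
product at level `k` is `< 1`; the factor of `p = (i, j)` at level `k` is `1/2` or `8` if
`Wj s (J j) (x i) (y j) = b` (according to `Wj s k = b` or not) and `1` otherwise (for `J j = k` use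
`pr Q 0 = 0`, `ph Q 0 = 1/2`). With `S = {p | Wj s (J p.2) (x p.1) (y p.2) = b}`:
`(1/2)^u 8^c < 1`, so `4 c < u + c`. `S` depends only on the nodes: for `y'` with
`J j ≤ lev (y' j) (y j)`, `Wj s (J j) (x i) (y' j) = Wj s (J j) (x i) (y j)` (`lev (x i) (y j) ≤ t < J j`,
`pre l` agrees for `l < J j`), and `y'` is again a configuration (`Cfg`): all `lev` are the same
(`yJ`: `lev (y j) (y j') < min (J j) (J j')`).
-/

set_option autoImplicit false

namespace Pool.Agent.RTY

open Finset Pool.Agent.RSU Pool.Agent.RTX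

variable {k M : ℕ}

/-- two leaves agree before their first difference -/
private theorem bm_spec {a b : Fin k → Fin 2} (i : Fin k) (hi : (i : ℕ) < lev a b) :
    a i = b i := by
  by_contra hne
  have h1 : (range k).filter (fun i => ∀ j : Fin k, (j : ℕ) ≤ i → a j = b j) ⊆ range (i : ℕ) := by
    intro m hm
    rw [mem_filter, mem_range] at hm
    rw [mem_range]
    by_contra hcon
    push Not at hcon
    exact hne (hm.2 i hcon)
  have h2 := card_le_card h1
  rw [card_range] at h2
  unfold lev at hi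
  omega

/-- the first difference of two leaves depends only on nodes below it -/
private theorem bm_same {J : ℕ} {x x' y y' : Fin k → Fin 2} (hy : J ≤ lev y x)
    (hy' : J ≤ lev y' x') (hx : lev x x' < J) : lev y y' = lev x x' := by
  have hJ : J ≤ k := hy.trans (lev_le _ _)
  have hl : lev x x' < k := by omega
  refine lev_eq hl ?_ ?_
  · intro j hj
    rw [bm_spec (a := y) (b := x) j (by omega), bm_spec (a := y') (b := x') j (by omega)]
    exact bm_spec j hj
  · rw [bm_spec (a := y) (b := x) ⟨lev x x', hl⟩ (by simp only; omega),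
      bm_spec (a := y') (b := x') ⟨lev x x', hl⟩ (by simp only; omega)]
    intro he
    have h1 : lev x x' + 1 ≤ lev x x' := by
      refine le_lev (by omega) ?_
      intro j hj
      rcases Nat.lt_succ_iff_lt_or_eq.1 hj with h | h
      · exact bm_spec j h
      · have : j = ⟨lev x x', hl⟩ := Fin.ext h
        rw [this]
        exact he
    omega

private theorem bm_pre {J j : ℕ} (hj : j < J) {x y : Fin k → Fin 2} (hy : J ≤ lev y x) :
    pre j y = pre j x := by
  funext i
  unfold pre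
  split_ifs with h
  · exact bm_spec i (by omega)
  · rfl

private theorem bm_W {Q : ℕ} (s : ℕ → Sym2 (Fin k → Fin 2) → Fin Q) {J : ℕ}
    {x x' y y' : Fin k → Fin 2} (hy : J ≤ lev y x)
    (hy' : J ≤ lev y' x') (hx : lev x x' < J) : ∀ j ≤ J, Wj s j y y' = Wj s j x x' := by
  intro j
  induction j with
  | zero => intro _; rfl
  | succ j ih =>
    intro hj
    unfold Wj bit
    rw [bm_same hy hy' hx, ih (by omega), bm_pre (by omega) hy, bm_pre (by omega) hy']

private theorem bm_self (a : Fin k → Fin 2) {J : ℕ} (hJ : J ≤ k) : J ≤ lev a a :=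
  le_lev hJ fun _ _ => rfl

private theorem bm_num {u c : ℕ} (h : (1 / 2 : ℝ) ^ u * 8 ^ c < 1) : 4 * c < u + c := by
  have h1 : (2 : ℝ) ^ (3 * c) < 2 ^ u := by
    have h2 : (8 : ℝ) ^ c = 2 ^ (3 * c) := by
      rw [pow_mul]
      norm_num
    rw [h2] at h
    have h3 : (0 : ℝ) < 2 ^ u := by positivity
    have h4 : (1 / 2 : ℝ) ^ u * 2 ^ u = 1 := by
      rw [← mul_pow]
      norm_num
    nlinarith [mul_lt_mul_of_pos_right h h3]
  have := (pow_lt_pow_iff_right₀ (by norm_num : (1 : ℝ) < 2)).1 h1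
  omega

/-- the factors at the last level -/
private theorem bm_F {Q : ℕ} (s : ℕ → Sym2 (Fin k → Fin 2) → Fin Q) (b : Bool) {B J : ℕ} (hB : B < J)
    (hJ : J ≤ k) (x y : Fin k → Fin 2) : F s b k B J x y =
      if Wj s J x y = b then (if Wj s k x y = b then 1 / 2 else 8) else 1 := by
  unfold F
  rw [if_neg (by omega)]
  by_cases h : k ≤ J
  · have hJk : J = k := le_antisymm hJ h
    subst hJk
    rw [if_pos h, Nat.sub_self, pr_zero, ph_zero]
    by_cases h1 : Wj s J x y = b
    · rw [if_pos h1, if_pos h1, if_pos h1]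
      norm_num
    · rw [if_neg h1, if_neg h1]
      norm_num
  · rw [if_neg h, Nat.sub_self, ph_zero, ps_zero]

/-- the configuration depends only on the nodes -/
private theorem bm_cfg {N t : ℕ} {x : Fin M → (Fin k → Fin 2)} {y y' : Fin N → (Fin k → Fin 2)}
    {J B : Fin N → ℕ} (hc : Cfg t x y J B) (hy' : ∀ j, J j ≤ lev (y' j) (y j)) :
    Cfg t x y' J B := by
  have hxy : ∀ i j, lev (x i) (y' j) = lev (x i) (y j) := fun i j =>
    bm_same (J := J j) (bm_self (x i) (hc.Jk j)) (hy' j)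
      (lt_of_le_of_lt ((hc.xy i j).trans (hc.tB j)) (hc.BJ j))
  have hyy : ∀ j j', j ≠ j' → lev (y' j) (y' j') = lev (y j) (y j') := by
    intro j j' hjj
    have h1 := hc.yJ j j' hjj
    have h2 := hc.yJ j' j hjj.symm
    rw [lev_comm] at h2
    exact bm_same (J := min (J j) (J j')) ((min_le_left _ _).trans (hy' j))
      ((min_le_right _ _).trans (hy' j')) (lt_min h1 h2)
  exact ⟨hc.xx, fun i j => by rw [hxy]; exact hc.xy i j,
    fun j j' h => by rw [hyy j j' h.ne']; exact hc.yy j j' h,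
    fun j j' h => by rw [hyy j j' h]; exact hc.yJ j j' h, hc.tB, hc.BJ, hc.Jk, hc.sm⟩

theorem exists_step (hk : 1 ≤ k) (s : ℕ → Sym2 (Fin k → Fin 2) → Fin (30 * k)) {l : ℕ}
    (hl : l < k) : ∃ u : Sym2 (Fin k → Fin 2) → Fin (30 * k),
      Phi M (Function.update s l u) (l + 1) ≤ Phi M s l := by
  classical
  have hsum : ∑ u : Sym2 (Fin k → Fin 2) → Fin (30 * k), Phi M (Function.update s l u) (l + 1) ≤
      ((30 * k : ℕ) : ℝ) ^ Fintype.card (Sym2 (Fin k → Fin 2)) * Phi M s l := by
    unfold Phi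
    rw [sum_comm, mul_sum]
    refine sum_le_sum fun N _ => ?_
    rw [sum_comm, mul_sum]
    refine sum_le_sum fun t _ => ?_
    rw [sum_comm, mul_sum]
    refine sum_le_sum fun x _ => ?_
    rw [sum_comm, mul_sum]
    refine sum_le_sum fun y _ => ?_
    rw [sum_comm, mul_sum]
    refine sum_le_sum fun J _ => ?_
    rw [sum_comm, mul_sum]
    refine sum_le_sum fun B _ => ?_
    by_cases hc : Cfg t x y (fun j => (J j : ℕ)) (fun j => (B j : ℕ))
    · rw [if_pos hc]
      simp only [if_pos hc]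
      rw [sum_comm, mul_sum]
      exact sum_le_sum fun b _ => cfg_step hk s hl hc b
    · rw [if_neg hc]
      simp only [if_neg hc]
      simp
  by_contra hcon
  push Not at hcon
  have hne : Nonempty (Fin (30 * k)) := ⟨⟨0, by omega⟩⟩
  have h1 : ∑ _t : Sym2 (Fin k → Fin 2) → Fin (30 * k), Phi M s l <
      ∑ t : Sym2 (Fin k → Fin 2) → Fin (30 * k), Phi M (Function.update s l t) (l + 1) :=
    sum_lt_sum_of_nonempty univ_nonempty fun t _ => hcon t
  rw [sum_const, card_univ, Fintype.card_fun, Fintype.card_fin, nsmul_eq_mul] at h1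
  push_cast at h1 hsum
  linarith

private theorem bm_term (hk : 1 ≤ k) (s : ℕ → Sym2 (Fin k → Fin 2) → Fin (30 * k)) {N t : ℕ} (hN : N ≤ M)
    (ht : t ≤ k) {x : Fin M → (Fin k → Fin 2)} {y : Fin N → (Fin k → Fin 2)} {J B : Fin N → ℕ}
    (hc : Cfg t x y J B) (b : Bool) :
    ∏ p : Fin M × Fin N, F s b k (B p.2) (J p.2) (x p.1) (y p.2) ≤ Phi M s k := by
  classical
  have hF : ∀ (N : ℕ) (x : Fin M → (Fin k → Fin 2)) (y : Fin N → (Fin k → Fin 2)) (J B : Fin N → Fin (k + 1))
      (b : Bool), 0 ≤ ∏ p : Fin M × Fin N, F s b k (B p.2) (J p.2) (x p.1) (y p.2) :=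
    fun N x y J B b => prod_nonneg fun p _ => F_nonneg hk s b k _ _ _ _
  have hn : ∀ (N t : ℕ) (x : Fin M → (Fin k → Fin 2)) (y : Fin N → (Fin k → Fin 2))
      (J B : Fin N → Fin (k + 1)),
      0 ≤ (if Cfg t x y (fun j => (J j : ℕ)) (fun j => (B j : ℕ)) then
        ∑ b : Bool, ∏ p : Fin M × Fin N, F s b k (B p.2) (J p.2) (x p.1) (y p.2) else 0) := by
    intro N t x y J B
    split_ifs
    · exact sum_nonneg fun b _ => hF N x y J B b
    · exact le_rfl
  have hJ : ∀ j, J j < k + 1 := fun j => Nat.lt_succ_of_le (hc.Jk j)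
  have hB : ∀ j, B j < k + 1 := fun j => (hc.BJ j).trans (hJ j)
  obtain ⟨J', hJ'⟩ : ∃ J' : Fin N → Fin (k + 1), J' = fun j => ⟨J j, hJ j⟩ := ⟨_, rfl⟩
  obtain ⟨B', hB'⟩ : ∃ B' : Fin N → Fin (k + 1), B' = fun j => ⟨B j, hB j⟩ := ⟨_, rfl⟩
  have eJ : J = fun j => ((J' j : Fin (k + 1)) : ℕ) := by
    rw [hJ']
  have eB : B = fun j => ((B' j : Fin (k + 1)) : ℕ) := by
    rw [hB']
  have hc' : Cfg t x y (fun j => ((J' j : Fin (k + 1)) : ℕ)) (fun j => ((B' j : Fin (k + 1)) : ℕ)) := by
    rw [← eJ, ← eB]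
    exact hc
  have h0 : ∏ p : Fin M × Fin N, F s b k (B p.2) (J p.2) (x p.1) (y p.2) ≤
      (if Cfg t x y (fun j => ((J' j : Fin (k + 1)) : ℕ)) (fun j => ((B' j : Fin (k + 1)) : ℕ)) then
        ∑ b : Bool, ∏ p : Fin M × Fin N, F s b k (B' p.2) (J' p.2) (x p.1) (y p.2) else 0) := by
    rw [if_pos hc']
    have h1 := single_le_sum (s := (univ : Finset Bool))
      (f := fun b => ∏ p : Fin M × Fin N, F s b k (B' p.2) (J' p.2) (x p.1) (y p.2))
      (fun b _ => hF N x y J' B' b) (mem_univ b)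
    refine le_trans (le_of_eq ?_) h1
    rw [hJ', hB']
  refine h0.trans ?_
  unfold Phi
  refine le_trans ?_ (single_le_sum (fun N _ => sum_nonneg fun t _ => sum_nonneg fun x _ =>
    sum_nonneg fun y _ => sum_nonneg fun J _ => sum_nonneg fun B _ => hn N t x y J B)
    (mem_range.2 (Nat.lt_succ_of_le hN)))
  refine le_trans ?_ (single_le_sum (fun t _ => sum_nonneg fun x _ =>
    sum_nonneg fun y _ => sum_nonneg fun J _ => sum_nonneg fun B _ => hn N t x y J B)
    (mem_range.2 (Nat.lt_succ_of_le ht)))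
  refine le_trans ?_ (single_le_sum (fun x _ =>
    sum_nonneg fun y _ => sum_nonneg fun J _ => sum_nonneg fun B _ => hn N t x y J B) (mem_univ x))
  refine le_trans ?_ (single_le_sum (fun y _ =>
    sum_nonneg fun J _ => sum_nonneg fun B _ => hn N t x y J B) (mem_univ y))
  refine le_trans ?_ (single_le_sum (fun J _ => sum_nonneg fun B _ => hn N t x y J B) (mem_univ J'))
  exact single_le_sum (f := fun B : Fin N → Fin (k + 1) =>
    if Cfg t x y (fun j => ((J' j : Fin (k + 1)) : ℕ)) (fun j => ((B j : Fin (k + 1)) : ℕ)) then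
        ∑ b : Bool, ∏ p : Fin M × Fin N, F s b k (B p.2) (J' p.2) (x p.1) (y p.2) else 0)
    (fun B _ => hn N t x y J' B) (mem_univ B')

theorem good2_of_Phi (hk : 1 ≤ k) (s : ℕ → Sym2 (Fin k → Fin 2) → Fin (30 * k))
    (h : Phi M s k < 1) : Good2 M (Wj s k) := by
  classical
  intro N hN t ht x y J B hc b
  refine ⟨univ.filter fun p : Fin M × Fin N => Wj s (J p.2) (x p.1) (y p.2) = b, fun y' hy' => ?_⟩
  have hc' := bm_cfg hc hy'
  have h1 := lt_of_le_of_lt (bm_term hk s hN ht hc' b) h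
  have hW : ∀ p : Fin M × Fin N, Wj s (J p.2) (x p.1) (y' p.2) = Wj s (J p.2) (x p.1) (y p.2) :=
    fun p => bm_W s (J := J p.2) (bm_self (x p.1) (hc.Jk p.2)) (hy' p.2)
      (lt_of_le_of_lt ((hc.xy p.1 p.2).trans (hc.tB p.2)) (hc.BJ p.2)) _ le_rfl
  have h2 : ∏ p : Fin M × Fin N, F s b k (B p.2) (J p.2) (x p.1) (y' p.2) =
      ∏ p ∈ univ.filter (fun p : Fin M × Fin N => Wj s (J p.2) (x p.1) (y p.2) = b),
        (if Wj s k (x p.1) (y' p.2) = b then (1 / 2 : ℝ) else 8) := by
    rw [prod_filter]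
    refine prod_congr rfl fun p _ => ?_
    rw [bm_F s b (hc.BJ p.2) (hc.Jk p.2), hW p]
  rw [h2, prod_ite, prod_const, prod_const] at h1
  have h3 := bm_num h1
  have h4 := card_filter_add_card_filter_not
    (s := univ.filter (fun p : Fin M × Fin N => Wj s (J p.2) (x p.1) (y p.2) = b))
    (fun p => Wj s k (x p.1) (y' p.2) = b)
  simp only [ne_eq] at h3 h4 ⊢
  omega

end Pool.Agent.RTY
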