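import Pool.Agent.RTY.BDef
import Pool.Agent.RTX.BNum

/-!
# RTY, numerics of the base structure

`0 ≤ pr Q h ≤ 1/2` for `2 ≤ Q`; `h / (2 Q) ≤ pr Q h` for `h ≤ k`, `Q = 30 k`:
`(1 - 2/Q)^h ≤ exp (-2 h / Q) ≤ 1 - 2 h / Q + 2 (h / Q)^2` and `h / Q ≤ 1 / 30`.
`Phi_zero`: all `l = 0 ≤ B j`, so the product over `p` is
`∏_j (1 - pr Q (J j - B j) / 4) ^ M ≤ exp (- M ∑_j pr Q (J j - B j) / 4) ≤ exp (- M * M / (8 Q))`,
`Q = 30 k`, `M = 1000 k²`: `exp (- (1000 / 240) k M)`. The number of summands is at most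
`(M + 1) (k + 1) 2 ^ (k M) 2 ^ (k M) (k + 1) ^ (2 M)`, times 2 for `b`. As
`4.16 k > 1.4 k + 2 log (k + 1) + small` for all `k ≥ 1` (`2 log (k + 1) ≤ 2 log 2 * k`) it is `< 1`.
Model: `Pool/Agent/RTX/BNum.lean`.
-/

set_option autoImplicit false

namespace Pool.Agent.RTY

open Finset Pool.Agent.RSU Pool.Agent.RTX

private theorem q_bd {Q : ℕ} (hQ : 2 ≤ Q) (h : ℕ) :
    0 ≤ (1 - 2 / (Q : ℝ)) ^ h ∧ (1 - 2 / (Q : ℝ)) ^ h ≤ 1 := by
  have hQ' : (2 : ℝ) ≤ Q := by exact_mod_cast hQ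
  have h1 : 2 / (Q : ℝ) ≤ 1 := by
    rw [div_le_one (by linarith)]
    exact hQ'
  have h2 : 0 ≤ 2 / (Q : ℝ) := by positivity
  exact ⟨pow_nonneg (by linarith) h, pow_le_one₀ (by linarith) (by linarith)⟩

theorem pr_nonneg {Q : ℕ} (hQ : 2 ≤ Q) (h : ℕ) : 0 ≤ pr Q h := by
  have h1 := (q_bd hQ h).2
  unfold pr
  linarith

theorem pr_le {Q : ℕ} (hQ : 2 ≤ Q) (h : ℕ) : pr Q h ≤ 1 / 2 := by
  have h1 := (q_bd hQ h).1
  unfold pr
  linarith

private theorem pow_le_lin {q : ℝ} (hq : 0 ≤ q) : ∀ h : ℕ, 2 * ((h : ℝ) * q) ≤ 1 →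
    (1 - 2 * q) ^ h ≤ 1 - h * q := by
  intro h
  induction h with
  | zero => simp
  | succ h ih =>
    intro h1
    push_cast at h1 ⊢
    have h2 : 0 ≤ (h : ℝ) * q := by positivity
    have h3 : 2 * ((h : ℝ) * q) ≤ 1 := by nlinarith
    have h4 : 0 ≤ 1 - 2 * q := by nlinarith
    have h5 := mul_le_mul_of_nonneg_right (ih h3) h4
    rw [pow_succ]
    refine h5.trans ?_
    nlinarith

theorem le_pr {k h : ℕ} (hk : 1 ≤ k) (hh : h ≤ k) :
    (h : ℝ) / (2 * ((30 * k : ℕ) : ℝ)) ≤ pr (30 * k) h := by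
  have hk' : (1 : ℝ) ≤ k := by exact_mod_cast hk
  have hh' : (h : ℝ) ≤ k := by exact_mod_cast hh
  have hQ0 : (0 : ℝ) < ((30 * k : ℕ) : ℝ) := by
    push_cast
    linarith
  have h1 : 2 * ((h : ℝ) * (1 / ((30 * k : ℕ) : ℝ))) ≤ 1 := by
    rw [mul_one_div, mul_div_assoc', div_le_one hQ0]
    push_cast
    linarith
  have h2 := pow_le_lin (q := 1 / ((30 * k : ℕ) : ℝ)) (by positivity) h h1
  have e1 : 1 - 2 * (1 / ((30 * k : ℕ) : ℝ)) = 1 - 2 / ((30 * k : ℕ) : ℝ) := by ring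
  have e2 : (h : ℝ) / (2 * ((30 * k : ℕ) : ℝ)) = ((h : ℝ) * (1 / ((30 * k : ℕ) : ℝ))) / 2 := by
    field_simp
  rw [e1] at h2
  rw [e2]
  unfold pr
  linarith

private theorem two_pow_exp (n : ℕ) : (2 : ℝ) ^ n ≤ Real.exp (n * (7 / 10)) := by
  rw [Real.exp_nat_mul]
  refine pow_le_pow_left₀ (by norm_num) ?_ n
  have h := Real.log_two_lt_d9
  rw [← Real.exp_log (show (0 : ℝ) < 2 by norm_num)]
  exact Real.exp_le_exp.2 (by linarith)

/-- one configuration -/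
private theorem term_le {k M N : ℕ} (hk : 1 ≤ k) (s : ℕ → Sym2 (Fin k → Fin 2) → Fin (30 * k))
    {t : ℕ} {x : Fin M → (Fin k → Fin 2)} {y : Fin N → (Fin k → Fin 2)} {J B : Fin N → ℕ}
    (h : Cfg t x y J B) :
    ∑ b : Bool, ∏ p : Fin M × Fin N, F s b 0 (B p.2) (J p.2) (x p.1) (y p.2) ≤
      2 * Real.exp (-((M : ℝ) ^ 2 / (240 * k))) := by
  have hk' : (1 : ℝ) ≤ k := by exact_mod_cast hk
  have hQ : 2 ≤ 30 * k := by omega
  have hone : ∀ b : Bool, ∏ p : Fin M × Fin N, F s b 0 (B p.2) (J p.2) (x p.1) (y p.2) ≤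
      Real.exp (-((M : ℝ) ^ 2 / (240 * k))) := by
    intro b
    have h1 : ∀ p : Fin M × Fin N, F s b 0 (B p.2) (J p.2) (x p.1) (y p.2) =
        1 - pr (30 * k) (J p.2 - B p.2) / 4 := by
      intro p
      unfold F
      rw [if_pos (Nat.zero_le _)]
    have h2 : ∀ p : Fin M × Fin N, 0 ≤ 1 - pr (30 * k) (J p.2 - B p.2) / 4 := by
      intro p
      have := pr_le hQ (J p.2 - B p.2)
      linarith
    have h3 : ∀ p : Fin M × Fin N, 1 - pr (30 * k) (J p.2 - B p.2) / 4 ≤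
        Real.exp (-(((J p.2 - B p.2 : ℕ) : ℝ) / (240 * k))) := by
      intro p
      have h4 := Real.add_one_le_exp (-(((J p.2 - B p.2 : ℕ) : ℝ) / (240 * k)))
      have h5 := le_pr (h := J p.2 - B p.2) hk ((Nat.sub_le _ _).trans (h.Jk p.2))
      have h6 : ((J p.2 - B p.2 : ℕ) : ℝ) / (240 * k) =
          ((J p.2 - B p.2 : ℕ) : ℝ) / (2 * ((30 * k : ℕ) : ℝ)) / 4 := by
        rw [div_div]
        congr 1
        push_cast
        ring
      rw [h6] at h4 ⊢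
      linarith
    calc ∏ p : Fin M × Fin N, F s b 0 (B p.2) (J p.2) (x p.1) (y p.2)
        = ∏ p : Fin M × Fin N, (1 - pr (30 * k) (J p.2 - B p.2) / 4) :=
          Finset.prod_congr rfl fun p _ => h1 p
      _ ≤ ∏ p : Fin M × Fin N, Real.exp (-(((J p.2 - B p.2 : ℕ) : ℝ) / (240 * k))) :=
          Finset.prod_le_prod (fun p _ => h2 p) (fun p _ => h3 p)
      _ = Real.exp (∑ p : Fin M × Fin N, -(((J p.2 - B p.2 : ℕ) : ℝ) / (240 * k))) :=
          (Real.exp_sum _ _).symm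
      _ ≤ Real.exp (-((M : ℝ) ^ 2 / (240 * k))) := by
          apply Real.exp_le_exp.2
          rw [Finset.sum_neg_distrib, neg_le_neg_iff, ← Finset.sum_div, Fintype.sum_prod_type]
          apply div_le_div_of_nonneg_right _ (by positivity)
          simp only [Finset.sum_const, Finset.card_univ, Fintype.card_fin, nsmul_eq_mul]
          have h7 : (M : ℝ) ≤ ∑ j, ((J j - B j : ℕ) : ℝ) := by exact_mod_cast h.sm
          have h8 : (0 : ℝ) ≤ M := Nat.cast_nonneg _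
          nlinarith
  rw [Fintype.sum_bool]
  linarith [hone true, hone false]

theorem Phi_zero {k : ℕ} (hk : 1 ≤ k) (s : ℕ → Sym2 (Fin k → Fin 2) → Fin (30 * k)) :
    Phi (1000 * k ^ 2) s 0 < 1 := by
  classical
  obtain ⟨M, hM⟩ : ∃ M, M = 1000 * k ^ 2 := ⟨_, rfl⟩
  rw [← hM]
  have hk' : (1 : ℝ) ≤ k := by exact_mod_cast hk
  obtain ⟨c, hc⟩ : ∃ c : ℝ, c = 2 * Real.exp (-((M : ℝ) ^ 2 / (240 * k))) := ⟨_, rfl⟩
  have hc0 : 0 ≤ c := by
    rw [hc]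
    positivity
  have hk1 : (1 : ℝ) ≤ (k : ℝ) + 1 := by linarith
  have h2k : (1 : ℝ) ≤ (2 : ℝ) ^ k := one_le_pow₀ (by norm_num)
  obtain ⟨T, hT⟩ : ∃ T : ℝ, T = ((k : ℝ) + 1) * (((2 : ℝ) ^ k) ^ M * (((2 : ℝ) ^ k) ^ M *
    (((k : ℝ) + 1) ^ M * (((k : ℝ) + 1) ^ M * c)))) := ⟨_, rfl⟩
  have h1 : Phi M s 0 ≤ ∑ _N ∈ range (M + 1), T := by
    unfold Phi
    refine Finset.sum_le_sum fun N hN => ?_
    have hNM : N ≤ M := by
      have := Finset.mem_range.1 hN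
      omega
    have h2 : (∑ t ∈ range (k + 1), ∑ x : Fin M → (Fin k → Fin 2),
        ∑ y : Fin N → (Fin k → Fin 2), ∑ J : Fin N → Fin (k + 1), ∑ B : Fin N → Fin (k + 1),
        if Cfg t x y (fun j => (J j : ℕ)) (fun j => (B j : ℕ)) then
          ∑ b : Bool, ∏ p : Fin M × Fin N, F s b 0 (B p.2) (J p.2) (x p.1) (y p.2) else 0) ≤
        ∑ _t ∈ range (k + 1), ∑ _x : Fin M → (Fin k → Fin 2),
        ∑ _y : Fin N → (Fin k → Fin 2), ∑ _J : Fin N → Fin (k + 1), ∑ _B : Fin N → Fin (k + 1),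
          c := by
      refine Finset.sum_le_sum fun t _ => Finset.sum_le_sum fun x _ => Finset.sum_le_sum fun y _ =>
        Finset.sum_le_sum fun J _ => Finset.sum_le_sum fun B _ => ?_
      split_ifs with h
      · have h3 := term_le (J := fun j => (J j : ℕ)) (B := fun j => (B j : ℕ)) hk s h
        rw [← hc] at h3
        exact h3
      · exact hc0
    refine h2.trans ?_
    simp only [Finset.sum_const, Finset.card_univ, Fintype.card_fun, Fintype.card_fin,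
      Finset.card_range, nsmul_eq_mul]
    push_cast
    rw [hT]
    have e1 : ((k : ℝ) + 1) ^ N ≤ ((k : ℝ) + 1) ^ M := pow_le_pow_right₀ hk1 hNM
    have e2 : ((2 : ℝ) ^ k) ^ N ≤ ((2 : ℝ) ^ k) ^ M := pow_le_pow_right₀ h2k hNM
    have e3 : ((k : ℝ) + 1) ^ N * c ≤ ((k : ℝ) + 1) ^ M * c := mul_le_mul_of_nonneg_right e1 hc0
    have e4 : ((k : ℝ) + 1) ^ N * (((k : ℝ) + 1) ^ N * c) ≤
        ((k : ℝ) + 1) ^ M * (((k : ℝ) + 1) ^ M * c) :=
      mul_le_mul e1 e3 (by positivity) (by positivity)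
    have e5 : ((2 : ℝ) ^ k) ^ N * (((k : ℝ) + 1) ^ N * (((k : ℝ) + 1) ^ N * c)) ≤
        ((2 : ℝ) ^ k) ^ M * (((k : ℝ) + 1) ^ M * (((k : ℝ) + 1) ^ M * c)) :=
      mul_le_mul e2 e4 (by positivity) (by positivity)
    exact mul_le_mul_of_nonneg_left (mul_le_mul_of_nonneg_left e5 (by positivity)) (by positivity)
  rw [Finset.sum_const, Finset.card_range, nsmul_eq_mul] at h1
  refine h1.trans_lt ?_
  have a1 : ((M + 1 : ℕ) : ℝ) ≤ Real.exp M := by
    push_cast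
    exact Real.add_one_le_exp _
  have a2 : (k : ℝ) + 1 ≤ Real.exp k := Real.add_one_le_exp _
  have a3 : ((2 : ℝ) ^ k) ^ M ≤ Real.exp (((k * M : ℕ) : ℝ) * (7 / 10)) := by
    rw [← pow_mul]
    exact two_pow_exp _
  have a4 : ((k : ℝ) + 1) ^ M ≤ Real.exp (((k * M : ℕ) : ℝ) * (7 / 10)) := by
    refine le_trans (pow_le_pow_left₀ (by linarith) ?_ M) a3
    have h5 : k + 1 ≤ 2 ^ k := Nat.lt_two_pow_self
    exact_mod_cast h5
  have a5 : (2 : ℝ) ≤ Real.exp 1 := by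
    have := Real.add_one_le_exp (1 : ℝ)
    linarith
  have a6 : c ≤ Real.exp 1 * Real.exp (-((M : ℝ) ^ 2 / (240 * k))) := by
    rw [hc]
    exact mul_le_mul_of_nonneg_right a5 (Real.exp_pos _).le
  have hMr : (M : ℝ) = 1000 * (k : ℝ) ^ 2 := by
    rw [hM]
    push_cast
    ring
  obtain ⟨u, hu⟩ : ∃ u, u = Real.exp (((k * M : ℕ) : ℝ) * (7 / 10)) := ⟨_, rfl⟩
  rw [← hu] at a3 a4
  have hu0 : 0 ≤ u := by
    rw [hu]
    exact (Real.exp_pos _).le
  calc ((M + 1 : ℕ) : ℝ) * T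
      ≤ Real.exp M * (Real.exp k * (u * (u * (u * (u * (Real.exp 1 *
        Real.exp (-((M : ℝ) ^ 2 / (240 * k))))))))) := by
        rw [hT]
        refine mul_le_mul a1 ?_ (by positivity) (Real.exp_pos _).le
        refine mul_le_mul a2 ?_ (by positivity) (Real.exp_pos _).le
        refine mul_le_mul a3 ?_ (by positivity) hu0
        refine mul_le_mul a3 ?_ (by positivity) hu0
        refine mul_le_mul a4 ?_ (by positivity) hu0
        exact mul_le_mul a4 a6 hc0 hu0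
    _ = Real.exp ((M : ℝ) + k + 4 * (((k * M : ℕ) : ℝ) * (7 / 10)) + 1 +
        -((M : ℝ) ^ 2 / (240 * k))) := by
        rw [hu, ← Real.exp_add, ← Real.exp_add, ← Real.exp_add, ← Real.exp_add, ← Real.exp_add,
          ← Real.exp_add, ← Real.exp_add]
        congr 1
        ring
    _ < 1 := by
        refine Real.exp_lt_one_iff.2 ?_
        have b1 : (M : ℝ) ^ 2 / (240 * k) = 1000000 / 240 * (k : ℝ) ^ 3 := by
          rw [hMr]
          field_simp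
          ring
        rw [b1, hMr]
        push_cast
        rw [hMr]
        have b2 : (k : ℝ) ^ 2 ≤ (k : ℝ) ^ 3 := pow_le_pow_right₀ hk' (by norm_num)
        have b3 : (k : ℝ) ≤ (k : ℝ) ^ 3 := by
          calc (k : ℝ) = (k : ℝ) ^ 1 := (pow_one _).symm
            _ ≤ (k : ℝ) ^ 3 := pow_le_pow_right₀ hk' (by norm_num)
        have b4 : (k : ℝ) * (1000 * (k : ℝ) ^ 2) = 1000 * (k : ℝ) ^ 3 := by ring
        rw [b4]
        linarith

end Pool.Agent.RTY
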