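import Pool.Agent.RTY.BNum

/-!
# RTY, one step of the potential argument (model: `Pool/Agent/RTX/BStep.lean`)

For a fixed configuration and `b`: `∑_u ∏_p F (update s l u) b (l+1) ... ≤ (30k)^(#Sym2) ∏_p F s b l ...`.
The pairs `p = (i, j)` with `l < B j` have the same constant factor. For the others (`B j ≤ l`) the key
`s(pre l (x i), pre l (y j))` of the bit of level `l` is different for different pairs: if
`pre l (x i) = pre l (x i')` then `l < lev (x i) (x i')`, but `lev ≤ t ≤ B j ≤ l` for `i ≠ i'` (`xx`);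
`pre l (y j) = pre l (y j')`, `j' < j`: `l < lev (y j) (y j') ≤ B j ≤ l` (`yy`); crosswise
`pre l (x i) = pre l (y j')`: `l < lev (x i) (y j') ≤ t` (`xy`). So the sum over `u` of the product
factorizes and each factor is averaged with probabilities `1 - 1/Q`, `1/Q` (bit = 1), `Q = 30 k`:
* `B j ≤ l < J j`: `pr_succ` gives the second formula at level `l`; for `l = B j` both values of the second
  formula are `≤ 1 - pr Q (J - B) / 4` (`ph ≤ 3/4` (`ph_le`), `pr ≤ 1/2`);
* `J j ≤ l`: `Wj s (J j)` does not change (`Wj_congr`); `ph_succ`, `ps_succ`; for `l = J j` the second formula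
  at level `l` (`pr Q 0 = 0`) is the third one.
`Wj (update s l u) (l + 1) x y = xor (Wj s l x y) (bit ... l x y)` as `lev x y ≤ t ≤ B j ≤ l`.
-/

set_option autoImplicit false

namespace Pool.Agent.RTY

open Finset Pool.Agent.RSU Pool.Agent.RTX

variable {k : ℕ}

/-- equal prefixes mean a late first difference -/
private theorem bs_lev {l : ℕ} (hl : l < k) {a b : Fin k → Fin 2} (h : pre l a = pre l b) :
    l + 1 ≤ lev a b := by
  refine le_lev (by omega) fun i hi => ?_
  have h1 := congrFun h i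
  unfold pre at h1
  rw [if_pos (by omega), if_pos (by omega)] at h1
  exact h1

/-- one step for the value of a pair -/
private theorem bs_succ {Q : ℕ} (s : ℕ → Sym2 (Fin k → Fin 2) → Fin Q) (l : ℕ)
    (u : Sym2 (Fin k → Fin 2) → Fin Q) {a b : Fin k → Fin 2} (h : lev a b ≤ l) :
    Wj (Function.update s l u) (l + 1) a b =
      xor (Wj s l a b) (decide (((u s(pre l a, pre l b) : Fin Q) : ℕ) = 0)) := by
  have h1 : Wj (Function.update s l u) l a b = Wj s l a b :=
    Wj_congr (fun i hi => Function.update_of_ne (by omega) _ _) a b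
  show (if lev a b ≤ l then xor (Wj (Function.update s l u) l a b)
    (bit (Function.update s l u) l a b) else false) = _
  rw [if_pos h, h1]
  unfold bit
  rw [Function.update_self]

/-- the average of a function of `a = 0` -/
private theorem bs_avg {Q : ℕ} (hQ : 1 ≤ Q) (u v : ℝ) :
    (∑ a : Fin Q, if ((a : ℕ) = 0) then u else v) / Q = (1 - 1 / (Q : ℝ)) * v + 1 / (Q : ℝ) * u := by
  obtain ⟨q, rfl⟩ : ∃ q, Q = q + 1 := ⟨Q - 1, by omega⟩
  rw [Fin.sum_univ_succ]
  have h1 : ∑ i : Fin q, (if (((i.succ : Fin (q + 1)) : ℕ) = 0) then u else v) = q * v := by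
    rw [Finset.sum_congr rfl (g := fun _ => v) (fun i _ => if_neg (by simp))]
    simp
  rw [h1]
  have h2 : ((q + 1 : ℕ) : ℝ) ≠ 0 := by positivity
  have h3 : (((0 : Fin (q + 1)) : ℕ) = 0) := rfl
  rw [if_pos h3]
  field_simp
  push_cast
  ring

theorem F_nonneg (hk : 1 ≤ k) (s : ℕ → Sym2 (Fin k → Fin 2) → Fin (30 * k)) (b : Bool)
    (l B J : ℕ) (x y : Fin k → Fin 2) : 0 ≤ F s b l B J x y := by
  have hQ : 2 ≤ 30 * k := by omega
  have hph : ∀ m, 0 < ph (30 * k) m := fun m => ph_pos hk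
  have hps : ∀ m, 0 < ps (30 * k) m := fun m => ps_pos hk
  unfold F
  split_ifs
  · have := pr_le hQ (J - B)
    linarith
  · have h1 := pr_le hQ (J - l)
    have h2 := pr_nonneg hQ (J - l)
    have h3 := hph (k - J)
    have h4 : 0 ≤ (1 - pr (30 * k) (J - l)) * ph (30 * k) (k - J) :=
      mul_nonneg (by linarith) h3.le
    linarith
  · have h1 := pr_le hQ (J - l)
    have h2 := pr_nonneg hQ (J - l)
    have h3 := hph (k - J)
    have h4 : 0 ≤ pr (30 * k) (J - l) * ph (30 * k) (k - J) := mul_nonneg h2 h3.le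
    linarith
  · exact (hph _).le
  · exact (hps _).le
  · exact zero_le_one

/-- the value of the pair after the step, if the bit is `c` -/
private noncomputable def bsG (Q k : ℕ) (s : ℕ → Sym2 (Fin k → Fin 2) → Fin Q) (b : Bool) (l J : ℕ)
    (x y : Fin k → Fin 2) (c : Bool) : ℝ :=
  if l + 1 ≤ J then
    (if xor (Wj s l x y) c = b then (1 - pr Q (J - (l + 1))) * ph Q (k - J) + pr Q (J - (l + 1))
      else pr Q (J - (l + 1)) * ph Q (k - J) + (1 - pr Q (J - (l + 1))))
  else if Wj s J x y = b then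
    (if xor (Wj s l x y) c = b then ph Q (k - (l + 1)) else ps Q (k - (l + 1))) else 1

private theorem bs_eval {Q : ℕ} (s : ℕ → Sym2 (Fin k → Fin 2) → Fin Q) (b : Bool) {l B J : ℕ}
    (u : Sym2 (Fin k → Fin 2) → Fin Q) {x y : Fin k → Fin 2} (hB : B ≤ l) (h : lev x y ≤ l) :
    F (Function.update s l u) b (l + 1) B J x y =
      if ((u s(pre l x, pre l y) : Fin Q) : ℕ) = 0 then bsG Q k s b l J x y true
        else bsG Q k s b l J x y false := by
  have hc : ∀ c : Bool, decide (((u s(pre l x, pre l y) : Fin Q) : ℕ) = 0) = c →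
      F (Function.update s l u) b (l + 1) B J x y = bsG Q k s b l J x y c := by
    intro c hc
    unfold F bsG
    rw [if_neg (show ¬ l + 1 ≤ B by omega), bs_succ s l u h, hc]
    by_cases h1 : l + 1 ≤ J
    · rw [if_pos h1, if_pos h1]
    · rw [if_neg h1, if_neg h1]
      have h2 : Wj (Function.update s l u) J x y = Wj s J x y :=
        Wj_congr (fun i hi => Function.update_of_ne (by omega) _ _) x y
      rw [h2]
  by_cases h1 : ((u s(pre l x, pre l y) : Fin Q) : ℕ) = 0
  · rw [if_pos h1]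
    exact hc true (decide_eq_true h1)
  · rw [if_neg h1]
    exact hc false (decide_eq_false h1)

private theorem bs_one (hk : 1 ≤ k) (s : ℕ → Sym2 (Fin k → Fin 2) → Fin (30 * k)) (b : Bool)
    {l B J : ℕ} (hl : l < k) (hB : B ≤ l) (hBJ : B < J) (hJk : J ≤ k) (x y : Fin k → Fin 2) :
    (1 - 1 / ((30 * k : ℕ) : ℝ)) * bsG (30 * k) k s b l J x y false +
      1 / ((30 * k : ℕ) : ℝ) * bsG (30 * k) k s b l J x y true ≤ F s b l B J x y := by
  have hQ : 2 ≤ 30 * k := by omega
  by_cases h1 : l + 1 ≤ J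
  · -- `l < J`
    have e1 : J - l = (J - (l + 1)) + 1 := by omega
    have hpr := pr_succ (30 * k) (J - (l + 1))
    rw [← e1] at hpr
    have hr1 := pr_le hQ (J - l)
    have hr0 := pr_nonneg hQ (J - l)
    have hph0 : 0 < ph (30 * k) (k - J) := ph_pos hk
    have hph1 : ph (30 * k) (k - J) ≤ 3 / 4 := ph_le hk (by omega)
    obtain ⟨r, hr⟩ : ∃ r, r = pr (30 * k) (J - l) := ⟨_, rfl⟩
    obtain ⟨r', hr'⟩ : ∃ r', r' = pr (30 * k) (J - (l + 1)) := ⟨_, rfl⟩
    obtain ⟨φ, hφ⟩ : ∃ φ, φ = ph (30 * k) (k - J) := ⟨_, rfl⟩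
    obtain ⟨q, hq⟩ : ∃ q : ℝ, q = 1 / ((30 * k : ℕ) : ℝ) := ⟨_, rfl⟩
    unfold bsG
    rw [if_pos h1, if_pos h1]
    have key : (1 - 1 / ((30 * k : ℕ) : ℝ)) *
        (if xor (Wj s l x y) false = b then
          (1 - pr (30 * k) (J - (l + 1))) * ph (30 * k) (k - J) + pr (30 * k) (J - (l + 1))
        else pr (30 * k) (J - (l + 1)) * ph (30 * k) (k - J) + (1 - pr (30 * k) (J - (l + 1)))) +
        1 / ((30 * k : ℕ) : ℝ) *
        (if xor (Wj s l x y) true = b then
          (1 - pr (30 * k) (J - (l + 1))) * ph (30 * k) (k - J) + pr (30 * k) (J - (l + 1))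
        else pr (30 * k) (J - (l + 1)) * ph (30 * k) (k - J) + (1 - pr (30 * k) (J - (l + 1)))) =
        (if Wj s l x y = b then (1 - pr (30 * k) (J - l)) * ph (30 * k) (k - J) + pr (30 * k) (J - l)
          else pr (30 * k) (J - l) * ph (30 * k) (k - J) + (1 - pr (30 * k) (J - l))) := by
      rw [hpr, ← hr', ← hφ, ← hq]
      cases Wj s l x y <;> cases b <;> simp <;> ring
    rw [key]
    rcases hB.eq_or_lt with h2 | h2
    · have eF : F s b l B J x y = 1 - pr (30 * k) (J - l) / 4 := by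
        unfold F
        rw [if_pos (show l ≤ B by omega), h2]
      rw [eF, ← hr, ← hφ]
      rw [← hr] at hr0 hr1
      rw [← hφ] at hph0 hph1
      split_ifs
      · nlinarith
      · nlinarith
    · have eF : F s b l B J x y =
          (if Wj s l x y = b then (1 - pr (30 * k) (J - l)) * ph (30 * k) (k - J) + pr (30 * k) (J - l)
          else pr (30 * k) (J - l) * ph (30 * k) (k - J) + (1 - pr (30 * k) (J - l))) := by
        unfold F
        rw [if_neg (show ¬ l ≤ B by omega), if_pos (show l ≤ J by omega)]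
      rw [eF]
  · -- `J ≤ l`
    have hJl : J ≤ l := by omega
    have e1 : k - l = (k - (l + 1)) + 1 := by omega
    have hps := ps_succ (30 * k) (k - (l + 1))
    have hph := ph_succ (30 * k) (k - (l + 1))
    rw [← e1] at hps hph
    unfold bsG
    rw [if_neg h1, if_neg h1]
    have e2 : F s b l B J x y =
        if Wj s J x y = b then (if Wj s l x y = b then ph (30 * k) (k - l) else ps (30 * k) (k - l))
          else 1 := by
      unfold F
      rw [if_neg (show ¬ l ≤ B by omega)]
      rcases hJl.eq_or_lt with h2 | h2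
      · rw [if_pos (show l ≤ J by omega), ← h2, Nat.sub_self, pr_zero]
        by_cases h3 : Wj s J x y = b
        · rw [if_pos h3, if_pos h3, if_pos h3]
          ring
        · rw [if_neg h3, if_neg h3]
          ring
      · rw [if_neg (show ¬ l ≤ J by omega)]
    rw [e2]
    by_cases h3 : Wj s J x y = b
    · rw [if_pos h3, if_pos h3, if_pos h3, hps, hph]
      apply le_of_eq
      cases Wj s l x y <;> cases b <;> simp
    · rw [if_neg h3, if_neg h3, if_neg h3]
      apply le_of_eq
      ring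

theorem cfg_step (hk : 1 ≤ k) (s : ℕ → Sym2 (Fin k → Fin 2) → Fin (30 * k)) {l : ℕ} (hl : l < k)
    {M N t : ℕ} {x : Fin M → (Fin k → Fin 2)} {y : Fin N → (Fin k → Fin 2)} {J B : Fin N → ℕ}
    (hc : Cfg t x y J B) (b : Bool) :
    ∑ u : Sym2 (Fin k → Fin 2) → Fin (30 * k), ∏ p : Fin M × Fin N,
        F (Function.update s l u) b (l + 1) (B p.2) (J p.2) (x p.1) (y p.2) ≤
      ((30 * k : ℕ) : ℝ) ^ Fintype.card (Sym2 (Fin k → Fin 2)) *
        ∏ p : Fin M × Fin N, F s b l (B p.2) (J p.2) (x p.1) (y p.2) := by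
  classical
  obtain ⟨P, hP⟩ : ∃ P : Finset (Fin M × Fin N), P = univ.filter fun p => B p.2 ≤ l := ⟨_, rfl⟩
  obtain ⟨P', hP'⟩ : ∃ P' : Finset (Fin M × Fin N), P' = univ.filter fun p => ¬ B p.2 ≤ l :=
    ⟨_, rfl⟩
  have hsplit : ∀ G : Fin M × Fin N → ℝ, ∏ p, G p = (∏ p ∈ P, G p) * ∏ p ∈ P', G p := by
    intro G
    rw [hP, hP', Finset.prod_filter_mul_prod_filter_not]
  have hlev : ∀ p ∈ P, lev (x p.1) (y p.2) ≤ l := by
    intro p hp
    rw [hP, mem_filter] at hp
    exact (hc.xy p.1 p.2).trans ((hc.tB p.2).trans hp.2)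
  have hinj : Set.InjOn (fun p : Fin M × Fin N => s(pre l (x p.1), pre l (y p.2))) P := by
    rintro ⟨i, j⟩ hp ⟨i', j'⟩ hp' h
    have hBj : B j ≤ l := by
      have := mem_coe.1 hp
      rw [hP, mem_filter] at this
      exact this.2
    have hBj' : B j' ≤ l := by
      have := mem_coe.1 hp'
      rw [hP, mem_filter] at this
      exact this.2
    have ht : t ≤ l := (hc.tB j).trans hBj
    have h3 : s(pre l (x i), pre l (y j)) = s(pre l (x i'), pre l (y j')) := h
    rw [Sym2.eq_iff] at h3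
    rcases h3 with ⟨h4, h5⟩ | ⟨h4, -⟩
    · have e1 : i = i' := by
        by_contra hne
        have h6 := bs_lev hl h4
        have h7 := hc.xx i i' hne
        omega
      have e2 : j = j' := by
        by_contra hne
        rcases lt_or_gt_of_ne hne with h8 | h8
        · have h6 := bs_lev hl h5.symm
          have h7 := hc.yy j' j h8
          omega
        · have h6 := bs_lev hl h5
          have h7 := hc.yy j j' h8
          omega
      rw [e1, e2]
    · exfalso
      have h6 := bs_lev hl h4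
      have h7 := hc.xy i j'
      omega
  obtain ⟨g, hg⟩ : ∃ g : Fin M × Fin N → Fin (30 * k) → ℝ, g = fun (p : Fin M × Fin N) (a : Fin (30 * k)) =>
      if (a : ℕ) = 0 then bsG (30 * k) k s b l (J p.2) (x p.1) (y p.2) true
        else bsG (30 * k) k s b l (J p.2) (x p.1) (y p.2) false := ⟨_, rfl⟩
  have e1 : ∀ u : Sym2 (Fin k → Fin 2) → Fin (30 * k), ∏ p : Fin M × Fin N,
      F (Function.update s l u) b (l + 1) (B p.2) (J p.2) (x p.1) (y p.2) =
      (∏ p ∈ P, g p (u s(pre l (x p.1), pre l (y p.2)))) *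
        ∏ p ∈ P', F s b l (B p.2) (J p.2) (x p.1) (y p.2) := by
    intro u
    rw [hsplit]
    congr 1
    · refine prod_congr rfl fun p hp => ?_
      have h1 := hlev p hp
      rw [hP, mem_filter] at hp
      rw [hg]
      exact bs_eval s b u hp.2 h1
    · refine prod_congr rfl fun p hp => ?_
      rw [hP', mem_filter] at hp
      unfold F
      rw [if_pos (show l + 1 ≤ B p.2 by omega), if_pos (show l ≤ B p.2 by omega)]
  have hsp : ∑ u : Sym2 (Fin k → Fin 2) → Fin (30 * k),
      ∏ p ∈ P, g p (u s(pre l (x p.1), pre l (y p.2))) =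
      ((30 * k : ℕ) : ℝ) ^ Fintype.card (Sym2 (Fin k → Fin 2)) *
        ∏ p ∈ P, ((∑ a, g p a) / ((30 * k : ℕ) : ℝ)) :=
    sum_prod (by omega) P (fun p => s(pre l (x p.1), pre l (y p.2))) hinj g
  rw [sum_congr rfl fun u _ => e1 u, ← sum_mul, hsp, hsplit, mul_assoc]
  refine mul_le_mul_of_nonneg_left ?_ (by positivity)
  refine mul_le_mul_of_nonneg_right ?_ (prod_nonneg fun p _ => F_nonneg hk s b _ _ _ _ _)
  have hG : ∀ (c : Bool) (J' : ℕ) (a b' : Fin k → Fin 2), 0 ≤ bsG (30 * k) k s b l J' a b' c := by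
    intro c J' a b'
    have hQ : 2 ≤ 30 * k := by omega
    have h1 := pr_le hQ (J' - (l + 1))
    have h2 := pr_nonneg hQ (J' - (l + 1))
    have h3 : 0 < ph (30 * k) (k - J') := ph_pos hk
    have h4 := mul_nonneg h2 h3.le
    have h5 : 0 ≤ (1 - pr (30 * k) (J' - (l + 1))) * ph (30 * k) (k - J') :=
      mul_nonneg (by linarith) h3.le
    have h6 : 0 < ph (30 * k) (k - (l + 1)) := ph_pos hk
    have h7 : 0 < ps (30 * k) (k - (l + 1)) := ps_pos hk
    unfold bsG
    split_ifs <;> linarith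
  have havg : ∀ p : Fin M × Fin N, (∑ a, g p a) / ((30 * k : ℕ) : ℝ) =
      (1 - 1 / ((30 * k : ℕ) : ℝ)) * bsG (30 * k) k s b l (J p.2) (x p.1) (y p.2) false +
        1 / ((30 * k : ℕ) : ℝ) * bsG (30 * k) k s b l (J p.2) (x p.1) (y p.2) true := by
    intro p
    rw [hg]
    exact bs_avg (by omega) _ _
  have hg0 : ∀ p a, 0 ≤ g p a := by
    intro p a
    rw [hg]
    show 0 ≤ (if (a : ℕ) = 0 then bsG (30 * k) k s b l (J p.2) (x p.1) (y p.2) true
        else bsG (30 * k) k s b l (J p.2) (x p.1) (y p.2) false)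
    split_ifs
    · exact hG _ _ _ _
    · exact hG _ _ _ _
  refine prod_le_prod (fun p _ => div_nonneg (sum_nonneg fun a _ => hg0 p a) (by positivity))
    fun p hp => ?_
  rw [havg]
  rw [hP, mem_filter] at hp
  exact bs_one hk s b hl hp.2 (hc.BJ p.2) (hc.Jk p.2) _ _

end Pool.Agent.RTY
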