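import Pool.Agent.RTY.BMix

/-!
# RTY, the base structure (helper88)
-/

set_option autoImplicit false

namespace Pool.Agent.RTY

open Finset Pool.Agent.RSU Pool.Agent.RTX

theorem exists_base2 (k : ℕ) (hk : 1 ≤ k) : ∃ W : (Fin k → Fin 2) → (Fin k → Fin 2) → Bool,
    (∀ a b, W a b = W b a) ∧ Good2 (1000 * k ^ 2) W := by
  have h : ∀ l ≤ k, ∃ s : ℕ → Sym2 (Fin k → Fin 2) → Fin (30 * k), Phi (1000 * k ^ 2) s l < 1 := by
    intro l
    induction l with
    | zero => exact fun _ => ⟨fun _ _ => ⟨0, by omega⟩, Phi_zero hk _⟩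
    | succ l ih =>
      intro hl
      obtain ⟨s, hs⟩ := ih (by omega)
      obtain ⟨u, hu⟩ := exists_step (M := 1000 * k ^ 2) hk s (by omega : l < k)
      exact ⟨_, lt_of_le_of_lt hu hs⟩
  obtain ⟨s, hs⟩ := h k le_rfl
  exact ⟨Wj s k, Wj_comm s k, good2_of_Phi hk s hs⟩

end Pool.Agent.RTY
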