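import Pool.Agent.RTY.Defs

/-!
# RTY, chains (pure combinatorics of the binary tree)

`Vn τ p` (`t < τ ≤ k`): a set of nodes, closed under going up to level `t + 1`.
`d p` = greatest `τ ∈ (t, k]` with `Vn τ p` (`0` if there is none). Greedy: given `y 0, ..., y (n-1)` with
`B j = max t (sup_{j' < j} lev (y j) (y j')) < d (y j) = J j`, call `p` free if
`max t (sup_j lev p (y j)) < d p`; take for `y n` a free `p` with `d p` maximal. Then `d (y n) ≤ d (y j)` for
`j < n` (`y n` was free before), so `lev (y j) (y n) ≤ B n < J n ≤ J j`. Every step adds `≥ 1` to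
`∑ (J j - B j)`; stop after `M` steps. If there is no free `p` then every node
`(τ, p)`, `Vn τ p`, `t < τ`, is on a chain: `τ ≤ lev p (y j)` and `τ ≤ J j` for some `j`; the smallest such `j` has
`B j < τ ≤ J j`; so the number `nn t Vn` of nodes is at most `∑ (J j - B j)` (the node is determined by `(j, τ)`:
`pre (τ - 1) p = pre (τ - 1) (y j)`), hence the sum is `≥ M`.
-/

set_option autoImplicit false

namespace Pool.Agent.RTY

open Finset Pool.Agent.RSU

private theorem ch_spec {k : ℕ} {a b : Fin k → Fin 2} (i : Fin k) (hi : (i : ℕ) < lev a b) :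
    a i = b i := by
  by_contra hne
  have h1 : (range k).filter (fun i => ∀ j : Fin k, (j : ℕ) ≤ i → a j = b j) ⊆ range (i : ℕ) := by
    intro m hm
    rw [mem_filter, mem_range] at hm
    rw [mem_range]
    by_contra hcon
    push Not at hcon
    exact hne (hm.2 i hcon)
  have h2 := card_le_card h1
  rw [card_range] at h2
  unfold lev at hi
  omega

private theorem ch_trans {k τ : ℕ} {a b c : Fin k → Fin 2} (h1 : τ ≤ lev a b) (h2 : τ ≤ lev b c) :
    τ ≤ lev a c := by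
  have hk : τ ≤ k := h1.trans (lev_le _ _)
  refine le_lev hk fun j hj => ?_
  rw [ch_spec j (lt_of_lt_of_le hj h1), ch_spec j (lt_of_lt_of_le hj h2)]

private theorem ch_pre {k τ : ℕ} (hτ : 0 < τ) {a b : Fin k → Fin 2} (h : τ ≤ lev a b) :
    RTX.pre (τ - 1) a = RTX.pre (τ - 1) b := by
  funext i
  unfold RTX.pre
  split_ifs with hi
  · exact ch_spec i (by omega)
  · rfl

open Classical in
/-- the greatest level in `(t, k]` with `Vn τ p` -/
private noncomputable def dd {k : ℕ} (t : ℕ) (Vn : ℕ → (Fin k → Fin 2) → Prop) (p : Fin k → Fin 2) : ℕ :=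
  ((Ioc t k).filter fun τ => Vn τ p).sup id

private theorem dd_le {k t : ℕ} (Vn : ℕ → (Fin k → Fin 2) → Prop) (p : Fin k → Fin 2) : dd t Vn p ≤ k := by
  classical
  unfold dd
  refine Finset.sup_le fun τ hτ => ?_
  exact (mem_Ioc.1 (mem_filter.1 hτ).1).2

private theorem le_dd {k t τ : ℕ} {Vn : ℕ → (Fin k → Fin 2) → Prop} {p : Fin k → Fin 2} (h1 : t < τ)
    (h2 : τ ≤ k) (h3 : Vn τ p) : τ ≤ dd t Vn p := by
  classical
  unfold dd
  exact Finset.le_sup (f := id) (mem_filter.2 ⟨mem_Ioc.2 ⟨h1, h2⟩, h3⟩)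

private theorem dd_spec {k t : ℕ} {Vn : ℕ → (Fin k → Fin 2) → Prop} {p : Fin k → Fin 2}
    (h : t < dd t Vn p) : Vn (dd t Vn p) p := by
  classical
  have hne : ((Ioc t k).filter fun τ => Vn τ p).Nonempty := by
    rw [Finset.nonempty_iff_ne_empty]
    intro h0
    have h1 : dd t Vn p = 0 := by
      unfold dd
      rw [h0, Finset.sup_empty]
      rfl
    omega
  obtain ⟨τ, hτ, he⟩ := Finset.exists_mem_eq_sup _ hne id
  have h2 : dd t Vn p = τ := he
  rw [h2]
  exact (mem_filter.1 hτ).2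

private def Bf {k : ℕ} (t : ℕ) (y : ℕ → (Fin k → Fin 2)) (n : ℕ) (p : Fin k → Fin 2) : ℕ :=
  max t ((range n).sup fun j => lev p (y j))

private theorem le_Bf {k t n j : ℕ} (y : ℕ → (Fin k → Fin 2)) (p : Fin k → Fin 2) (hj : j < n) :
    lev p (y j) ≤ Bf t y n p := by
  unfold Bf
  exact le_trans (Finset.le_sup (f := fun j => lev p (y j)) (mem_range.2 hj)) (le_max_right _ _)

private theorem t_le_Bf {k t n : ℕ} (y : ℕ → (Fin k → Fin 2)) (p : Fin k → Fin 2) : t ≤ Bf t y n p :=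
  le_max_left _ _

private theorem Bf_mono {k t m n : ℕ} (y : ℕ → (Fin k → Fin 2)) (p : Fin k → Fin 2) (h : m ≤ n) :
    Bf t y m p ≤ Bf t y n p := by
  unfold Bf
  exact max_le_max le_rfl (Finset.sup_mono (range_subset_range.2 h))

private theorem Bf_congr {k t n : ℕ} {y y' : ℕ → (Fin k → Fin 2)} (h : ∀ j < n, y j = y' j)
    (p : Fin k → Fin 2) : Bf t y n p = Bf t y' n p := by
  unfold Bf
  congr 1
  refine Finset.sup_congr rfl fun j hj => ?_
  rw [h j (mem_range.1 hj)]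

private theorem lt_Bf {k t n τ : ℕ} {y : ℕ → (Fin k → Fin 2)} {p : Fin k → Fin 2} (ht : t < τ)
    (h : τ ≤ Bf t y n p) : ∃ j < n, τ ≤ lev p (y j) := by
  by_contra hcon
  push Not at hcon
  have h1 : Bf t y n p < τ := by
    unfold Bf
    rw [max_lt_iff]
    refine ⟨ht, ?_⟩
    rw [Finset.sup_lt_iff (by rw [bot_eq_zero]; omega)]
    intro j hj
    exact hcon j (mem_range.1 hj)
  omega

/-- greedy sequences -/
private def Gr {k : ℕ} (t : ℕ) (Vn : ℕ → (Fin k → Fin 2) → Prop) (y : ℕ → (Fin k → Fin 2)) (n : ℕ) : Prop :=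
  ∀ j < n, Bf t y j (y j) < dd t Vn (y j) ∧
    ∀ p, Bf t y j p < dd t Vn p → dd t Vn p ≤ dd t Vn (y j)

private theorem exists_gr {k : ℕ} (t : ℕ) (Vn : ℕ → (Fin k → Fin 2) → Prop) (n : ℕ) :
    ∃ y : ℕ → (Fin k → Fin 2), ∃ m ≤ n, Gr t Vn y m ∧ (m = n ∨ ∀ p, ¬ Bf t y m p < dd t Vn p) := by
  classical
  induction n with
  | zero => exact ⟨fun _ _ => 0, 0, le_rfl, fun j hj => absurd hj (Nat.not_lt_zero _), Or.inl rfl⟩
  | succ n ih =>
    obtain ⟨y, m, hm, hG, h⟩ := ih
    by_cases hf : ∀ p, ¬ Bf t y m p < dd t Vn p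
    · exact ⟨y, m, by omega, hG, Or.inr hf⟩
    · have hmn : m = n := h.resolve_right hf
      subst hmn
      push Not at hf
      obtain ⟨p₀, hp₀⟩ := hf
      obtain ⟨p, hp, hmax⟩ := Finset.exists_max_image
        ((univ : Finset (Fin k → Fin 2)).filter fun p => Bf t y m p < dd t Vn p) (dd t Vn)
        ⟨p₀, mem_filter.2 ⟨mem_univ _, hp₀⟩⟩
      rw [mem_filter] at hp
      have hag : ∀ j < m, Function.update y m p j = y j := fun j hj =>
        Function.update_of_ne (by omega) _ _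
      refine ⟨Function.update y m p, m + 1, le_rfl, fun j hj => ?_, Or.inl rfl⟩
      rcases Nat.lt_succ_iff_lt_or_eq.1 hj with hj | rfl
      · have h1 : ∀ q, Bf t (Function.update y m p) j q = Bf t y j q := fun q =>
          Bf_congr (fun i hi => hag i (hi.trans hj)) q
        rw [hag j hj, h1]
        refine ⟨(hG j hj).1, fun q hq => ?_⟩
        rw [h1] at hq
        exact (hG j hj).2 q hq
      · have h1 : ∀ q, Bf t (Function.update y j p) j q = Bf t y j q := fun q =>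
          Bf_congr (fun i hi => hag i hi) q
        rw [Function.update_self, h1]
        refine ⟨hp.2, fun q hq => ?_⟩
        rw [h1] at hq
        exact hmax q (mem_filter.2 ⟨mem_univ _, hq⟩)

private theorem count {k t m : ℕ} (Vn : ℕ → (Fin k → Fin 2) → Prop)
    (h1 : ∀ τ p p', t < τ → Vn τ p → τ ≤ lev p p' → Vn τ p') {y : ℕ → (Fin k → Fin 2)}
    (hf : ∀ p, ¬ Bf t y m p < dd t Vn p) :
    nn t Vn ≤ ∑ j : Fin m, (dd t Vn (y j) - Bf t y j (y j)) := by
  classical
  have hstep : ∀ τ ∈ Ioc t k, ((univ.filter fun p => Vn τ p).image (RTX.pre (τ - 1))).card ≤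
      ((univ : Finset (Fin m)).filter fun j : Fin m => Bf t y j (y j) < τ ∧ τ ≤ dd t Vn (y j)).card := by
    intro τ hτ
    rw [mem_Ioc] at hτ
    have hsub : (univ.filter fun p => Vn τ p).image (RTX.pre (τ - 1)) ⊆
        ((univ : Finset (Fin m)).filter fun j : Fin m => Bf t y j (y j) < τ ∧ τ ≤ dd t Vn (y j)).image
          (fun j : Fin m => RTX.pre (τ - 1) (y j)) := by
      intro q hq
      obtain ⟨p, hp, rfl⟩ := mem_image.1 hq
      have hV : Vn τ p := (mem_filter.1 hp).2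
      have h2 : τ ≤ Bf t y m p := (le_dd hτ.1 hτ.2 hV).trans (not_lt.1 (hf p))
      have hex : ∃ j, j < m ∧ τ ≤ lev p (y j) := lt_Bf hτ.1 h2
      obtain ⟨hj, hjτ⟩ := Nat.find_spec hex
      have hmin : ∀ i < Nat.find hex, ¬ τ ≤ lev p (y i) := fun i hi hc =>
        Nat.find_min hex hi ⟨hi.trans hj, hc⟩
      refine mem_image.2 ⟨⟨Nat.find hex, hj⟩, mem_filter.2 ⟨mem_univ _, ?_, ?_⟩, ?_⟩
      · by_contra hcon
        push Not at hcon
        obtain ⟨i, hi, hiτ⟩ := lt_Bf hτ.1 hcon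
        exact hmin i hi (ch_trans hjτ hiτ)
      · exact le_dd hτ.1 hτ.2 (h1 τ p _ hτ.1 hV hjτ)
      · exact (ch_pre (by omega) hjτ).symm
    exact (card_le_card hsub).trans card_image_le
  have hnn : nn t Vn ≤ ∑ τ ∈ Ioc t k,
      ((univ : Finset (Fin m)).filter fun j : Fin m => Bf t y j (y j) < τ ∧ τ ≤ dd t Vn (y j)).card := by
    unfold nn
    refine sum_le_sum fun τ hτ => ?_
    convert hstep τ hτ
  refine hnn.trans ?_
  simp_rw [card_filter]
  rw [sum_comm]
  refine sum_le_sum fun j _ => ?_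
  rw [← card_filter]
  have hs : (Ioc t k).filter (fun τ => Bf t y j (y j) < τ ∧ τ ≤ dd t Vn (y j)) ⊆
      Ioc (Bf t y j (y j)) (dd t Vn (y j)) := by
    intro τ hτ
    exact mem_Ioc.2 (mem_filter.1 hτ).2
  exact (card_le_card hs).trans (by rw [Nat.card_Ioc])

theorem chain {k M t : ℕ} (Vn : ℕ → (Fin k → Fin 2) → Prop)
    (h1 : ∀ τ p p', t < τ → Vn τ p → τ ≤ lev p p' → Vn τ p')
    (h2 : ∀ τ τ' p, Vn τ p → t < τ' → τ' ≤ τ → Vn τ' p) (hn : M ≤ nn t Vn) :
    ∃ N ≤ M, ∃ (y : Fin N → (Fin k → Fin 2)) (J B : Fin N → ℕ),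
      (∀ j j', j' < j → lev (y j) (y j') ≤ B j) ∧ (∀ j j', j ≠ j' → lev (y j) (y j') < J j) ∧
      (∀ j, t ≤ B j) ∧ (∀ j, B j < J j) ∧ (∀ j, J j ≤ k) ∧ (M ≤ ∑ j, (J j - B j)) ∧
      ∀ j, Vn (J j) (y j) := by
  obtain ⟨y, m, hm, hG, hor⟩ := exists_gr t Vn M
  have hBJ : ∀ j : Fin m, Bf t y j (y j) < dd t Vn (y j) := fun j => (hG j j.2).1
  refine ⟨m, hm, fun j => y j, fun j => dd t Vn (y j), fun j => Bf t y j (y j), ?_, ?_, ?_, hBJ, ?_, ?_, ?_⟩
  · intro j j' hj
    exact le_Bf y _ hj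
  · intro j j' hjj
    rcases lt_or_gt_of_ne hjj with h | h
    · -- `j < j'`
      have e1 : lev (y j) (y j') ≤ Bf t y j' (y j') := by
        rw [lev_comm]
        exact le_Bf y _ h
      have e2 : Bf t y j (y j') < dd t Vn (y j') :=
        lt_of_le_of_lt (Bf_mono y _ (le_of_lt h)) (hBJ j')
      have e3 := (hG j j.2).2 _ e2
      exact lt_of_le_of_lt e1 (lt_of_lt_of_le (hBJ j') e3)
    · exact lt_of_le_of_lt (le_Bf y _ h) (hBJ j)
  · intro j
    exact t_le_Bf y _
  · intro j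
    exact dd_le Vn _
  · rcases hor with rfl | hf
    · have e1 : ∑ _j : Fin m, 1 ≤ ∑ j : Fin m, (dd t Vn (y j) - Bf t y j (y j)) :=
        sum_le_sum fun j _ => by have := hBJ j; omega
      simpa using e1
    · exact hn.trans (count Vn h1 hf)
  · intro j
    exact dd_spec (lt_of_le_of_lt (t_le_Bf y _) (hBJ j))

end Pool.Agent.RTY
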