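import Pool.Agent.RTY.Defs

/-!
# RTY, choice of the test leaves, and averaging

`choose_x`: greedy; after `m < M` choices the union of the classes `{b | t + 1 ≤ lev (f (x i)) (f b)}` has
weight `< m V / (5 M) < V / 5 ≤ wt G - wt E`, so there is `a ∈ G \ E` outside of them.
`avg2`: multiply by `∏ j, μ (a j)` and sum over all `a ∈ Fintype.piFinset Nn` (model: `RTX/Avg.lean`); or: by
contradiction choose for every `j` ... (the sum factorizes, each pair depends on one `a j` only).
-/

set_option autoImplicit false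

namespace Pool.Agent.RTY

open Finset Pool.Agent.RSU

variable {X : Type*} [Fintype X] [DecidableEq X]

theorem choose_x {k M t : ℕ} (hM : 1 ≤ M) (f : X → (Fin k → Fin 2)) (μ : X → ℝ)
    (h0 : ∀ a, 0 ≤ μ a) {V : ℝ} (hV0 : 0 < V) (G E : Finset X)
    (hG : V / 4 ≤ ∑ a ∈ G, μ a) (hc : ∀ a ∈ G, cw f μ (t + 1) (f a) < V / (5 * M))
    (hE : ∑ a ∈ E, μ a ≤ V / 20) :
    ∃ x : Fin M → X, (∀ i, x i ∈ G ∧ x i ∉ E) ∧ ∀ i i', i ≠ i' → lev (f (x i)) (f (x i')) ≤ t := by
  classical
  have hM0 : (0 : ℝ) < M := by exact_mod_cast hM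
  have key : ∀ m ≤ M, ∃ x : Fin m → X, (∀ i, x i ∈ G ∧ x i ∉ E) ∧
      ∀ i i', i ≠ i' → lev (f (x i)) (f (x i')) ≤ t := by
    intro m
    induction m with
    | zero => exact fun _ => ⟨fun i => i.elim0, fun i => i.elim0, fun i => i.elim0⟩
    | succ m ih =>
      intro hm
      obtain ⟨x, hx1, hx2⟩ := ih (by omega)
      have hex : ∃ a ∈ G, a ∉ E ∧ ∀ i, lev (f a) (f (x i)) ≤ t := by
        by_contra hcon
        push Not at hcon
        have g1 : ∑ a ∈ G, μ a ≤ ∑ a, ((if a ∈ E then μ a else 0) +
            ∑ i : Fin m, if t + 1 ≤ lev (f a) (f (x i)) then μ a else 0) := by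
          have g2 : ∀ a, 0 ≤ ∑ i : Fin m, if t + 1 ≤ lev (f a) (f (x i)) then μ a else 0 := fun a =>
            Finset.sum_nonneg fun i _ => by split_ifs <;> simp [h0]
          have g3 : ∀ a, 0 ≤ (if a ∈ E then μ a else 0) := fun a => by split_ifs <;> simp [h0]
          refine (Finset.sum_le_sum (fun a ha => ?_)).trans
            (Finset.sum_le_sum_of_subset_of_nonneg (subset_univ G)
              fun a _ _ => add_nonneg (g3 a) (g2 a))
          by_cases hE' : a ∈ E
          · rw [if_pos hE']
            exact le_add_of_nonneg_right (g2 a)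
          · obtain ⟨i, hi⟩ := hcon a ha hE'
            have g4 := Finset.single_le_sum (s := univ)
              (f := fun i : Fin m => if t + 1 ≤ lev (f a) (f (x i)) then μ a else 0)
              (fun i _ => by split_ifs <;> simp [h0]) (mem_univ i)
            simp only [if_pos (Nat.succ_le_of_lt hi)] at g4
            exact g4.trans (le_add_of_nonneg_left (g3 a))
        rw [Finset.sum_add_distrib, Finset.sum_comm] at g1
        have g2 : ∑ a, (if a ∈ E then μ a else 0) = ∑ a ∈ E, μ a := by
          rw [← Finset.sum_filter]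
          simp
        have g3 : ∑ i : Fin m, ∑ a, (if t + 1 ≤ lev (f a) (f (x i)) then μ a else 0) ≤
            m * (V / (5 * M)) := by
          have g4 : ∀ i ∈ (univ : Finset (Fin m)),
              ∑ a, (if t + 1 ≤ lev (f a) (f (x i)) then μ a else 0) ≤ V / (5 * M) := by
            intro i _
            rw [← Finset.sum_filter]
            exact (hc (x i) (hx1 i).1).le
          refine (Finset.sum_le_card_nsmul _ _ _ g4).trans (le_of_eq ?_)
          rw [Finset.card_univ, Fintype.card_fin, nsmul_eq_mul]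
        have g4 : (m : ℝ) * (V / (5 * M)) < V / 5 := by
          have g5 : (m : ℝ) < M := by exact_mod_cast hm
          have g6 : (M : ℝ) * (V / (5 * M)) = V / 5 := by field_simp
          rw [← g6]
          exact mul_lt_mul_of_pos_right g5 (by positivity)
        rw [g2] at g1
        linarith
      obtain ⟨a, haG, haE, hal⟩ := hex
      refine ⟨Fin.snoc x a, ?_, ?_⟩
      · intro i
        refine Fin.lastCases ?_ (fun j => ?_) i
        · rw [Fin.snoc_last]
          exact ⟨haG, haE⟩
        · rw [Fin.snoc_castSucc]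
          exact hx1 j
      · intro i i'
        refine Fin.lastCases ?_ (fun j => ?_) i
        · refine Fin.lastCases ?_ (fun j' => ?_) i'
          · intro h
            exact absurd rfl h
          · intro _
            rw [Fin.snoc_last, Fin.snoc_castSucc]
            exact hal j'
        · refine Fin.lastCases ?_ (fun j' => ?_) i'
          · intro _
            rw [Fin.snoc_last, Fin.snoc_castSucc, lev_comm]
            exact hal j
          · intro h
            rw [Fin.snoc_castSucc, Fin.snoc_castSucc]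
            exact hx2 j j' fun hjj => h (by rw [hjj])
  exact key M le_rfl

theorem avg2 {M N : ℕ} (μ : X → ℝ) (h0 : ∀ a, 0 ≤ μ a) (Nn : Fin N → Finset X)
    (hN : ∀ j, 0 < ∑ a ∈ Nn j, μ a) (S : Finset (Fin M × Fin N)) (bad : Fin M → X → Bool)
    (hf : ∀ a : Fin N → X, (∀ j, a j ∈ Nn j) →
      4 * (S.filter fun p => bad p.1 (a p.2) = true).card < S.card) :
    ∃ p ∈ S, 4 * ∑ a ∈ (Nn p.2).filter (fun a => bad p.1 a = true), μ a <
      ∑ a ∈ Nn p.2, μ a := by
  classical
  by_contra hcon
  push Not at hcon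
  have hcard : ∀ T : Finset (Fin M × Fin N), T.card = ∑ j, (univ.filter fun i => (i, j) ∈ T).card := by
    intro T
    rw [Finset.card_eq_sum_card_fiberwise (f := Prod.snd) (t := univ) (fun _ _ => mem_coe.2 (mem_univ _))]
    refine Finset.sum_congr rfl fun j _ => ?_
    refine Finset.card_bij (fun p _ => p.1) ?_ ?_ ?_
    · intro p hp
      rw [Finset.mem_filter] at hp
      rw [Finset.mem_filter]
      refine ⟨mem_univ _, ?_⟩
      rw [← hp.2]
      exact hp.1
    · intro p hp q hq hpq
      rw [Finset.mem_filter] at hp hq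
      exact Prod.ext hpq (hp.2.trans hq.2.symm)
    · intro i hi
      rw [Finset.mem_filter] at hi
      exact ⟨(i, j), Finset.mem_filter.2 ⟨hi.2, rfl⟩, rfl⟩
  have hch : ∀ j, ∃ a ∈ Nn j, (univ.filter fun i => (i, j) ∈ S).card ≤
      4 * ((univ.filter fun i => (i, j) ∈ S).filter fun i => bad i a = true).card := by
    intro j
    by_contra hno
    push Not at hno
    obtain ⟨w, hw⟩ : ∃ w, w = ∑ a ∈ Nn j, μ a := ⟨_, rfl⟩
    obtain ⟨T, hT⟩ : ∃ T : Finset (Fin M), T = univ.filter fun i => (i, j) ∈ S := ⟨_, rfl⟩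
    rw [← hT] at hno
    have hw0 : 0 < w := by rw [hw]; exact hN j
    have g1 : (T.card : ℝ) * w ≤ ∑ i ∈ T, 4 * ∑ a ∈ (Nn j).filter (fun a => bad i a = true), μ a := by
      rw [← nsmul_eq_mul]
      refine Finset.card_nsmul_le_sum _ _ _ fun i hi => ?_
      rw [hT, Finset.mem_filter] at hi
      rw [hw]
      exact hcon (i, j) hi.2
    have g2 : ∑ i ∈ T, 4 * ∑ a ∈ (Nn j).filter (fun a => bad i a = true), μ a =
        ∑ a ∈ Nn j, μ a * (4 * ((T.filter fun i => bad i a = true).card : ℝ)) := by
      have g3 : ∀ i ∈ T, 4 * ∑ a ∈ (Nn j).filter (fun a => bad i a = true), μ a =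
          ∑ a ∈ Nn j, if bad i a = true then 4 * μ a else 0 := by
        intro i _
        rw [Finset.mul_sum, Finset.sum_filter]
      rw [Finset.sum_congr rfl g3, Finset.sum_comm]
      refine Finset.sum_congr rfl fun a _ => ?_
      rw [← Finset.sum_filter, Finset.sum_const, nsmul_eq_mul]
      ring
    have g3 : ∑ a ∈ Nn j, μ a * (4 * ((T.filter fun i => bad i a = true).card : ℝ)) ≤
        ∑ a ∈ Nn j, μ a * ((T.card : ℝ) - 1) := by
      refine Finset.sum_le_sum fun a ha => mul_le_mul_of_nonneg_left ?_ (h0 a)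
      have g4 := hno a ha
      have g5 : 4 * (T.filter fun i => bad i a = true).card + 1 ≤ T.card := g4
      have g6 : 4 * ((T.filter fun i => bad i a = true).card : ℝ) + 1 ≤ T.card := by exact_mod_cast g5
      linarith
    rw [← Finset.sum_mul, ← hw] at g3
    rw [g2] at g1
    nlinarith
  choose a ha hle using hch
  have h1 := hf a ha
  rw [hcard S, hcard (S.filter fun p => bad p.1 (a p.2) = true), Finset.mul_sum] at h1
  have h2 : ∑ j, (univ.filter fun i => (i, j) ∈ S).card ≤
      ∑ j, 4 * (univ.filter fun i => (i, j) ∈ S.filter fun p => bad p.1 (a p.2) = true).card := by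
    refine Finset.sum_le_sum fun j _ => (hle j).trans (Nat.mul_le_mul le_rfl (Finset.card_le_card ?_))
    intro i hi
    rw [Finset.mem_filter, Finset.mem_filter] at hi
    rw [Finset.mem_filter, Finset.mem_filter]
    exact ⟨mem_univ _, hi.1.2, hi.2⟩
  omega

end Pool.Agent.RTY
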