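import Pool.Agent.RTY.Defs

/-!
# RTY, residue classes of coordinates (model: `lf_*` in `Pool/Agent/RTX/Lift.lean`)

`lev` = first difference. If the first difference `lev a b = l < r k` has `l % r = ρ` then
`lev (cls ρ a) (cls ρ b) = l / r` (coordinates `t r + ρ < l` agree, coordinate `l = (l / r) r + ρ` differs).
-/

set_option autoImplicit false

namespace Pool.Agent.RTY

open Finset Pool.Agent.RSU

/-- the first difference -/
private theorem cl_cases {p q : ℕ} (a b : Fin p → Fin q) :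
    (∃ (k : ℕ) (hk : k < p), (∀ j : Fin p, (j : ℕ) < k → a j = b j) ∧ a ⟨k, hk⟩ ≠ b ⟨k, hk⟩ ∧
      lev a b = k) ∨ (a = b ∧ lev a b = p) := by
  classical
  by_cases h : ∃ k, ∃ hk : k < p, a ⟨k, hk⟩ ≠ b ⟨k, hk⟩
  · left
    obtain ⟨hk, hne⟩ := Nat.find_spec h
    have hmin : ∀ j : Fin p, (j : ℕ) < Nat.find h → a j = b j := by
      intro j hj
      by_contra hcon
      exact Nat.find_min h hj ⟨j.2, hcon⟩
    exact ⟨Nat.find h, hk, hmin, hne, lev_eq hk hmin hne⟩
  · right
    push Not at h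
    have hab : a = b := by
      funext j
      exact h j j.2
    refine ⟨hab, le_antisymm (lev_le a b) (le_lev le_rfl ?_)⟩
    intro j _
    rw [hab]

private theorem cl_agree {p q : ℕ} {a b : Fin p → Fin q} {j : Fin p} (hj : (j : ℕ) < lev a b) :
    a j = b j := by
  rcases cl_cases a b with ⟨k, hk, h1, -, h3⟩ | ⟨h1, -⟩
  · exact h1 j (by omega)
  · rw [h1]

private theorem cl_lt {r k ρ t : ℕ} (hρ : ρ < r) (ht : t < k) : t * r + ρ < r * k := by
  have h2 : (t + 1) * r ≤ k * r := Nat.mul_le_mul_right r ht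
  have h4 : (t + 1) * r = t * r + r := by ring
  rw [mul_comm r k]
  omega

private theorem cls_eq {r k ρ : ℕ} (hρ : ρ < r) (a : Fin (r * k) → Fin 2) (t : Fin k) :
    cls r k ρ a t = a ⟨(t : ℕ) * r + ρ, cl_lt hρ t.2⟩ := by
  unfold cls
  rw [dif_pos (cl_lt hρ t.2)]

theorem cls_lev {r k ρ : ℕ} (hρ : ρ < r) {a b : Fin (r * k) → Fin 2} (hlt : lev a b < r * k)
    (h : lev a b % r = ρ) : lev (cls r k ρ a) (cls r k ρ b) = lev a b / r := by
  rcases cl_cases a b with ⟨l, hl, h1, h2, h3⟩ | ⟨h1, h3⟩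
  · have hr : 0 < r := lt_of_le_of_lt (Nat.zero_le _) hρ
    have h4 : l / r * r + ρ = l := by
      rw [← h, h3]
      exact Nat.div_add_mod' l r
    have h5 : l / r < k := by
      rw [Nat.div_lt_iff_lt_mul hr, mul_comm k r]
      exact hl
    rw [h3]
    refine lev_eq h5 ?_ ?_
    · intro t ht
      rw [cls_eq hρ, cls_eq hρ]
      refine h1 _ ?_
      change (t : ℕ) * r + ρ < l
      have h6 : ((t : ℕ) + 1) * r ≤ l / r * r := Nat.mul_le_mul_right r ht
      have h7 : ((t : ℕ) + 1) * r = t * r + r := by ring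
      omega
    · rw [cls_eq hρ, cls_eq hρ]
      simp only [h4]
      exact h2
  · omega

/-- agreement up to level `lt r k ρ τ` gives agreement of the coordinates `< τ` of the class -/
theorem cls_of_lev {r k ρ τ : ℕ} (hρ : ρ < r) (hτ : τ ≤ k) {a b : Fin (r * k) → Fin 2}
    (h : lt r k ρ τ ≤ lev a b) : τ ≤ lev (cls r k ρ a) (cls r k ρ b) := by
  refine le_lev hτ ?_
  intro t ht
  rw [cls_eq hρ, cls_eq hρ]
  refine cl_agree (lt_of_lt_of_le ?_ h)
  change (t : ℕ) * r + ρ < lt r k ρ τ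
  unfold lt
  refine lt_min ?_ (cl_lt hρ t.2)
  have h6 : ((t : ℕ) + 1) * r ≤ τ * r := Nat.mul_le_mul_right r ht
  have h7 : ((t : ℕ) + 1) * r = t * r + r := by ring
  omega

/-- a first difference below `lt r k ρ τ` of two leaves with the same class coordinates `< τ` is not at
a level of the class -/
theorem lev_of_cls {r k ρ τ : ℕ} (hρ : ρ < r) (hτ : τ ≤ k) {a b : Fin (r * k) → Fin 2}
    (h : τ ≤ lev (cls r k ρ a) (cls r k ρ b)) (hl : lev a b < lt r k ρ τ) : lev a b % r ≠ ρ := by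
  intro hm
  have h1 : lev a b < r * k := lt_of_lt_of_le hl (min_le_right _ _)
  have h2 : lev a b < τ * r + ρ := lt_of_lt_of_le hl (min_le_left _ _)
  rw [cls_lev hρ h1 hm] at h
  have h3 := Nat.div_add_mod' (lev a b) r
  rw [hm] at h3
  have h4 : τ * r ≤ lev a b / r * r := Nat.mul_le_mul_right r h
  omega

/-- one more class coordinate: the leaves of `Cl (τ + 1) p` in a node of level `lt τ` which is in
`Cl τ p` form the child with coordinate `p τ` -/
theorem Cl_child {r k ρ τ : ℕ} (hρ : ρ < r) (hτ : τ < k) (hl : τ * r + ρ < r * k)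
    {z : Fin (r * k) → Fin 2} {p : Fin k → Fin 2} (hz : τ ≤ lev (cls r k ρ z) p)
    (a : Fin (r * k) → Fin 2) (ha : τ * r + ρ ≤ lev a z) :
    a ∈ Cl r k ρ (τ + 1) p ↔
      τ * r + ρ + 1 ≤ lev a (Function.update z ⟨τ * r + ρ, hl⟩ (p ⟨τ, hτ⟩)) := by
  have hag : ∀ c : Fin (r * k), (c : ℕ) < τ * r + ρ → a c = z c := fun c hc =>
    cl_agree (lt_of_lt_of_le hc ha)
  unfold Cl
  rw [mem_filter]
  constructor
  · rintro ⟨-, h⟩
    have h1 : cls r k ρ a ⟨τ, hτ⟩ = p ⟨τ, hτ⟩ := cl_agree (lt_of_lt_of_le (Nat.lt_succ_self τ) h)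
    rw [cls_eq hρ] at h1
    refine le_lev hl ?_
    intro c hc
    by_cases hce : c = ⟨τ * r + ρ, hl⟩
    · rw [hce, Function.update_self]
      exact h1
    · rw [Function.update_of_ne hce]
      refine hag c ?_
      have : (c : ℕ) ≠ τ * r + ρ := fun h => hce (Fin.ext h)
      omega
  · intro h
    refine ⟨mem_univ _, le_lev hτ ?_⟩
    intro t ht
    rw [cls_eq hρ]
    rcases Nat.lt_or_ge (t : ℕ) τ with h2 | h2
    · have h3 : (t : ℕ) * r + ρ < τ * r + ρ := by
        have hr : 0 < r := lt_of_le_of_lt (Nat.zero_le _) hρ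
        have := Nat.mul_lt_mul_of_pos_right h2 hr
        omega
      rw [hag _ h3, ← cls_eq hρ z t]
      exact cl_agree (lt_of_lt_of_le h2 hz)
    · have ht' : t = ⟨τ, hτ⟩ := Fin.ext (by change (t : ℕ) = τ; omega)
      subst ht'
      have h4 := cl_agree (j := ⟨τ * r + ρ, hl⟩) (lt_of_lt_of_le (Nat.lt_succ_self _) h)
      rw [Function.update_self] at h4
      exact h4

end Pool.Agent.RTY
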