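import Pool.Agent.RTX.BDef
import Pool.Agent.RTX.Kern

/-!
# RTY (helper88): two-sided regular sets, exponent `α ^ (-1/2)` instead of `α ^ (-1/3)` (MP_b47c0e_co)

Base structure: the relation `W` of RTX on the leaves `Fin k → Fin 2` (parity of random bits, probability
`1 / (30 k)`, on the pairs of nodes of every level). New property `Good2`: `M` test leaves `x i` which
differ from each other and from all `y j` before level `t`, and `N ≤ M` nodes (`y j`, level `J j`), none
above another; `B j` = level up to which `y j` follows an earlier `y j'` (or `t`); the total number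
`∑ (J j - B j)` of nodes on these paths is at least `M`. Then for both values `b` there is a nonempty set
`S` of pairs `(i, j)` with `W (x i) (leaf below node j) = b` for more than 3/4 of the pairs of `S`,
however one chooses the leaves below the nodes.
-/

set_option autoImplicit false

namespace Pool.Agent.RTY

open Finset Pool.Agent.RSU

structure Cfg {k M N : ℕ} (t : ℕ) (x : Fin M → (Fin k → Fin 2)) (y : Fin N → (Fin k → Fin 2))
    (J B : Fin N → ℕ) : Prop where
  xx : ∀ i i', i ≠ i' → lev (x i) (x i') ≤ t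
  xy : ∀ i j, lev (x i) (y j) ≤ t
  yy : ∀ j j', j' < j → lev (y j) (y j') ≤ B j
  yJ : ∀ j j', j ≠ j' → lev (y j) (y j') < J j
  tB : ∀ j, t ≤ B j
  BJ : ∀ j, B j < J j
  Jk : ∀ j, J j ≤ k
  sm : M ≤ ∑ j, (J j - B j)

def Good2 {k : ℕ} (M : ℕ) (W : (Fin k → Fin 2) → (Fin k → Fin 2) → Bool) : Prop :=
  ∀ N ≤ M, ∀ t ≤ k, ∀ (x : Fin M → (Fin k → Fin 2)) (y : Fin N → (Fin k → Fin 2))
    (J B : Fin N → ℕ), Cfg t x y J B → ∀ b : Bool, ∃ S : Finset (Fin M × Fin N),
      ∀ y' : Fin N → (Fin k → Fin 2), (∀ j, J j ≤ lev (y' j) (y j)) →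
        4 * (S.filter fun p => W (x p.1) (y' p.2) ≠ b).card < S.card

/-- the coordinates in the residue class `ρ` modulo `r` -/
def cls (r k ρ : ℕ) (a : Fin (r * k) → Fin 2) : Fin k → Fin 2 :=
  fun t => if h : (t : ℕ) * r + ρ < r * k then a ⟨(t : ℕ) * r + ρ, h⟩ else 0

/-- the relation of the leaves `Fin (r * k) → Fin 2` -/
def TW (r k : ℕ) (W : (Fin k → Fin 2) → (Fin k → Fin 2) → Bool) (a b : Fin (r * k) → Fin 2) :
    Bool := W (cls r k (lev a b % r) a) (cls r k (lev a b % r) b)

theorem TW_comm {r k : ℕ} {W : (Fin k → Fin 2) → (Fin k → Fin 2) → Bool}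
    (hW : ∀ a b, W a b = W b a) (a b : Fin (r * k) → Fin 2) : TW r k W a b = TW r k W b a := by
  unfold TW
  rw [lev_comm a b, hW]

/-- the level (of leaves `Fin (r * k) → Fin 2`) before the coordinate number `τ` of the class `ρ` -/
def lt (r k ρ τ : ℕ) : ℕ := min (τ * r + ρ) (r * k)

/-- the leaves whose class coordinates `< τ` are those of `p` -/
def Cl (r k ρ τ : ℕ) (p : Fin k → Fin 2) : Finset (Fin (r * k) → Fin 2) :=
  univ.filter fun a => τ ≤ lev (cls r k ρ a) p

/-- weight of the class at level `τ` of `p` (abstract version) -/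
noncomputable def cw {X : Type*} [Fintype X] {k : ℕ} (f : X → (Fin k → Fin 2)) (μ : X → ℝ) (τ : ℕ)
    (p : Fin k → Fin 2) : ℝ := ∑ a ∈ univ.filter (fun a => τ ≤ lev (f a) p), μ a

/-- number of different nodes of level `τ` among the leaves `p` with `Vn τ p`, `t < τ ≤ k` -/
noncomputable def nn {k : ℕ} (t : ℕ) (Vn : ℕ → (Fin k → Fin 2) → Prop) : ℕ := by
  classical
  exact ∑ τ ∈ Ioc t k, ((univ.filter fun p => Vn τ p).image (RTX.pre (τ - 1))).card

end Pool.Agent.RTY
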