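import Pool.Agent.RTY.Cls

/-!
# RTY, exceptional leaves of a visible node

`E = Ls z l ∪ A₊ ∪ A₋`, `A₊` = leaves `x ∉ Ls`, `lev x z < l`, with
`∑ y ∈ Nd z l, μ y * D1 x y > (D + δ₁) * wt (Nd z l)`, `A₋` the same with `< (D - δ₁) *`.
`wt (Ls z l) ≤ 2 α V` (`RTX.loss`); `wt A₊ < α V`, otherwise `H A₊ (Nd z l)` is violated (`E1 A₊ (Nd z l) =
∑ x ∈ A₊, μ x * ∑ y, μ y * D1 x y > (D + δ₁) wt A₊ wt (Nd z l)`, strict because `wt A₊ > 0`); the same for `A₋`.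
For `x ∉ E`, `x ∉ Nd z l`: `lev x z < l`, `lev x z` is a window, so `lev x z % r = ρ`; for `y ∈ Nd z l`:
`lev x y = lev x z`, `x ≠ y` (`RTU.lev_of_lt`), `D1 x y = γ (2 ρ + [W (cls x) (cls y)])`.
-/

set_option autoImplicit false

namespace Pool.Agent.RTY

open Finset Pool.Agent.RSU Pool.Agent.RTX
open Pool.Agent.RTU (Nd mem_Nd Low High Win win_mod Ls mem_Ls)

/-- a positive weight of leaves with large values -/
private theorem exc_pos {X : Type*} {μ : X → ℝ} (h0 : ∀ a, 0 ≤ μ a) {A : Finset X} {S : X → ℝ} {c : ℝ}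
    (hS : ∀ x ∈ A, c < S x) (hA : 0 < ∑ x ∈ A, μ x) : c * ∑ x ∈ A, μ x < ∑ x ∈ A, μ x * S x := by
  obtain ⟨x, hx, hx0⟩ : ∃ x ∈ A, 0 < μ x := by
    by_contra hcon
    push Not at hcon
    have : ∑ x ∈ A, μ x ≤ 0 := Finset.sum_nonpos hcon
    linarith
  rw [Finset.mul_sum]
  refine Finset.sum_lt_sum (fun y hy => ?_) ⟨x, hx, ?_⟩
  · rw [mul_comm]
    exact mul_le_mul_of_nonneg_left (hS y hy).le (h0 y)
  · rw [mul_comm]
    exact mul_lt_mul_of_pos_left (hS x hx) hx0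

theorem exc {r k ρ : ℕ} {W : (Fin k → Fin 2) → (Fin k → Fin 2) → Bool}
    {γ α δ₁ δ₂ D V : ℝ} {μ : (Fin (r * k) → Fin 2) → ℝ} (hγ0 : 0 ≤ γ) (hα : 0 < α)
    (h12 : δ₁ < δ₂) (h0 : ∀ a, 0 ≤ μ a) (hV0 : 0 < V)
    (H : ∀ X Y : Finset (Fin (r * k) → Fin 2), α * V ≤ wt μ X → α * V ≤ wt μ Y →
      |E1 (TW r k W) r γ μ X Y - D * (wt μ X * wt μ Y)| ≤ δ₁ * (wt μ X * wt μ Y))
    (hρ : ∀ i, Win r γ δ₂ D i → i % r = ρ) (z : Fin (r * k) → Fin 2) {l : ℕ} (hl : l ≤ r * k)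
    (hz : α * V ≤ wt μ (Nd z l)) :
    ∃ E : Finset (Fin (r * k) → Fin 2), wt μ E ≤ 4 * (α * V) ∧ ∀ x ∉ E, x ∉ Nd z l →
      |γ * ∑ y ∈ Nd z l, μ y * ((W (cls r k ρ x) (cls r k ρ y)).toNat : ℝ) -
        (D - 2 * γ * ρ) * wt μ (Nd z l)| ≤ δ₁ * wt μ (Nd z l) := by
  classical
  have hA : 0 < α * V := mul_pos hα hV0
  obtain ⟨S, hS⟩ : ∃ S : (Fin (r * k) → Fin 2) → ℝ,
      S = fun x => ∑ y ∈ Nd z l, μ y * D1 (TW r k W) r γ x y := ⟨_, rfl⟩
  have hE1 : ∀ A : Finset (Fin (r * k) → Fin 2), E1 (TW r k W) r γ μ A (Nd z l) = ∑ x ∈ A, μ x * S x := by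
    intro A
    unfold E1
    refine Finset.sum_congr rfl fun x _ => ?_
    rw [hS]
    simp only
    rw [Finset.mul_sum]
    exact Finset.sum_congr rfl fun y _ => by ring
  obtain ⟨Ap, hAp⟩ : ∃ A : Finset (Fin (r * k) → Fin 2),
      A = univ.filter fun x => (D + δ₁) * wt μ (Nd z l) < S x := ⟨_, rfl⟩
  obtain ⟨Am, hAm⟩ : ∃ A : Finset (Fin (r * k) → Fin 2),
      A = univ.filter fun x => S x < (D - δ₁) * wt μ (Nd z l) := ⟨_, rfl⟩
  have hp : wt μ Ap < α * V := by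
    by_contra hc
    push Not at hc
    have h1 := (abs_le.1 (H Ap (Nd z l) hc hz)).2
    have h2 : (D + δ₁) * wt μ (Nd z l) * ∑ x ∈ Ap, μ x < ∑ x ∈ Ap, μ x * S x := by
      refine exc_pos h0 (fun x hx => ?_) (lt_of_lt_of_le hA hc)
      rw [hAp, mem_filter] at hx
      exact hx.2
    rw [hE1] at h1
    have h3 : wt μ Ap = ∑ x ∈ Ap, μ x := rfl
    rw [← h3] at h2
    nlinarith
  have hm : wt μ Am < α * V := by
    by_contra hc
    push Not at hc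
    have h1 := (abs_le.1 (H Am (Nd z l) hc hz)).1
    have h2 : -((D - δ₁) * wt μ (Nd z l)) * ∑ x ∈ Am, μ x < ∑ x ∈ Am, μ x * (-S x) := by
      refine exc_pos h0 (fun x hx => ?_) (lt_of_lt_of_le hA hc)
      rw [hAm, mem_filter] at hx
      exact neg_lt_neg hx.2
    rw [hE1] at h1
    have h3 : wt μ Am = ∑ x ∈ Am, μ x := rfl
    have h4 : ∑ x ∈ Am, μ x * (-S x) = -∑ x ∈ Am, μ x * S x := by
      rw [← Finset.sum_neg_distrib]
      exact Finset.sum_congr rfl fun x _ => by ring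
    rw [← h3, h4] at h2
    nlinarith
  refine ⟨Ls r γ δ₂ D z l ∪ (Ap ∪ Am), ?_, ?_⟩
  · have h1 := loss hγ0 hα h12 h0 hV0 H z hl hz
    have h2 := Pool.Agent.RTU.wt_union_le h0 (Ls r γ δ₂ D z l) (Ap ∪ Am)
    have h3 := Pool.Agent.RTU.wt_union_le h0 Ap Am
    linarith
  · intro x hx hxN
    rw [mem_union, mem_union, not_or, not_or] at hx
    obtain ⟨hxL, hxp, hxm⟩ := hx
    rw [mem_Nd, not_le] at hxN
    have hwin : Win r γ δ₂ D (lev x z) := by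
      by_contra hcon
      exact hxL (mem_Ls.2 ⟨hxN, hcon⟩)
    have hmod := hρ _ hwin
    have hSx : S x = 2 * γ * ρ * wt μ (Nd z l) +
        γ * ∑ y ∈ Nd z l, μ y * ((W (cls r k ρ x) (cls r k ρ y)).toNat : ℝ) := by
      have h3 : wt μ (Nd z l) = ∑ y ∈ Nd z l, μ y := rfl
      rw [hS, h3, Finset.mul_sum, Finset.mul_sum, ← Finset.sum_add_distrib]
      refine Finset.sum_congr rfl fun y hy => ?_
      rw [mem_Nd] at hy
      obtain ⟨e1, e2⟩ := Pool.Agent.RTU.lev_of_lt hl hxN hy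
      unfold D1 col TW
      rw [if_neg e2, e1, hmod]
      push_cast
      ring
    have h1 : S x ≤ (D + δ₁) * wt μ (Nd z l) := by
      by_contra hcon
      push Not at hcon
      apply hxp
      rw [hAp, mem_filter]
      exact ⟨mem_univ _, hcon⟩
    have h2 : (D - δ₁) * wt μ (Nd z l) ≤ S x := by
      by_contra hcon
      push Not at hcon
      apply hxm
      rw [hAm, mem_filter]
      exact ⟨mem_univ _, hcon⟩
    rw [abs_le]
    constructor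
    · nlinarith
    · nlinarith

end Pool.Agent.RTY
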