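import Pool.Agent.RTY.KerY
import Pool.Agent.RTX.Main

/-!
# RTY, transfer to graphs: word for word `RTX.main3` with `kerY` for `kerM`
-/

set_option autoImplicit false

namespace Pool.Agent.RTY

open Finset Pool.Agent.RSU Pool.Agent.RTX

theorem main4 {p g r k s M : ℕ} [Fact p.Prime]
    {W : (Fin k → Fin 2) → (Fin k → Fin 2) → Bool} {α δ η : ℝ} (hWs : ∀ a b, W a b = W b a)
    (hr : 1 ≤ r) (hM : 2 ≤ M) (hW : Good2 M W) (hα : 0 < α) (hη : 0 < η)
    (hg : g * (2 * r - 1) ≤ p) (hgδ : 4 * (δ + 2 * η) ≤ (g : ℝ) / p)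
    (hc : 700 * M * α ≤ 1)
    (U : Finset ((Fin (r * k) → Fin 2) × (Fin (2 * s) → ZMod p))) (hU : U.Nonempty)
    (hs : (((2 : ℕ) : ℝ) ^ (r * k)) ^ 2 * (p : ℝ) ^ (3 * s + 1) ≤ η * (α * U.card) ^ 2)
    (hreg : ∀ A ⊆ U, ∀ B ⊆ U, α * U.card ≤ A.card → α * U.card ≤ B.card →
      |((GT (TW r k W) (TW_comm hWs) p g r (2 * s)).edgeDensity A B : ℝ) -
        (GT (TW r k W) (TW_comm hWs) p g r (2 * s)).edgeDensity U U| ≤ δ) :
    5 * (α * (U.card : ℝ)) ≤ (p : ℝ) ^ (2 * s) := by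
  have hUc : 0 < U.card := card_pos.2 hU
  have hM0 : (0 : ℝ) < U.card := by exact_mod_cast hUc
  set d : ℝ := (((GT (TW r k W) (TW_comm hWs) p g r (2 * s)).edgeDensity U U : ℚ) : ℝ) with hd
  set Er : ℝ := (((2 : ℕ) : ℝ) ^ (r * k)) ^ 2 * (p : ℝ) ^ (3 * s + 1) with hEr
  refine kerY (μ := mw U) (h := (p : ℝ) ^ (2 * s)) (D := d) (γ := (g : ℝ) / p)
    (δ₁ := δ + η) (δ₂ := δ + 2 * η) hr hM hW hα (by linarith) hgδ
    (fun a => by unfold mw; positivity) ?_ (by rw [wt_mw, ovr_univ]) hM0 hc ?_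
  · intro a
    unfold mw
    have := card_le_univ (fb U a)
    rw [Fintype.card_fun, ZMod.card, Fintype.card_fin] at this
    exact_mod_cast this
  · intro X Y hX hY
    rw [wt_mw] at hX hY
    rw [wt_mw, wt_mw]
    have hX0 : (0 : ℝ) < (ovr U X).card := lt_of_lt_of_le (mul_pos hα hM0) hX
    have hY0 : (0 : ℝ) < (ovr U Y).card := lt_of_lt_of_le (mul_pos hα hM0) hY
    have h1 := abs_le.1 (hreg (ovr U X) (filter_subset _ _) (ovr U Y) (filter_subset _ _) hX hY)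
    have h2 := abs_le.1 (inter_err2 (TW r k W) (TW_comm hWs) hr hg U X Y)
    rw [dens_mul _ _ _ (by exact_mod_cast hX0) (by exact_mod_cast hY0), ← hEr] at h2
    clear_value Er
    have h3 : (α * U.card) ^ 2 ≤ ((ovr U X).card : ℝ) * (ovr U Y).card := by
      rw [sq]; gcongr
    have h4 : Er ≤ η * (((ovr U X).card : ℝ) * (ovr U Y).card) :=
      hs.trans (mul_le_mul_of_nonneg_left h3 hη.le)
    have h5 := mul_le_mul_of_nonneg_right h1.1 (mul_pos hX0 hY0).le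
    have h6 := mul_le_mul_of_nonneg_right h1.2 (mul_pos hX0 hY0).le
    rw [abs_le]
    constructor <;> linarith [h2.1, h2.2]

end Pool.Agent.RTY
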