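import Pool.Agent.RTY.Base
import Pool.Agent.RTY.MainY
import Pool.Agent.RTX.Fin

/-!
# RTY, the final assembly (helper88)

`V = (Fin (r k) → Fin 2) × (Fin (2 s) → ZMod p)`, `s` large; `k = ⌊α ^ (-1/2) / 1000⌋`, `M = 1000 k ^ 2`;
`p, g, r` as in `RTX.pick`.
-/

set_option autoImplicit false

namespace Pool.Agent.RTY

open Finset Pool.Agent.RSU Pool.Agent.RTX

theorem fin_bound2 {p g r k M : ℕ} [Fact p.Prime]
    {W : (Fin k → Fin 2) → (Fin k → Fin 2) → Bool} {α δ β : ℝ}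
    (hWs : ∀ a b, W a b = W b a) (hr : 1 ≤ r) (hM : 2 ≤ M) (hW : Good2 M W) (hα : 0 < α)
    (hg : g * (2 * r - 1) ≤ p) (hgδ : 4 * δ < (g : ℝ) / p)
    (hc : 700 * M * α ≤ 1) (hβ : 0 < β) (hβ2 : 1 < 5 * α * (β * 2 ^ (r * k))) (N : ℕ) :
    ∃ (V : Type) (_ : Fintype V) (_ : DecidableEq V) (H : SimpleGraph V)
      (_ : DecidableRel H.Adj), N ≤ Fintype.card V ∧
      ∀ U : Finset V, U.Nonempty →
        (∀ A, A ⊆ U → ∀ B, B ⊆ U → α * U.card ≤ A.card → α * U.card ≤ B.card →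
          |(H.edgeDensity A B : ℝ) - (H.edgeDensity U U : ℝ)| ≤ δ) →
        (U.card : ℝ) < β * (Fintype.card V : ℝ) := by
  have hpp : p.Prime := Fact.out
  have hp1 : (1 : ℝ) < p := by exact_mod_cast hpp.one_lt
  have hp0 : (0 : ℝ) < p := by linarith
  obtain ⟨η, hη⟩ : ∃ η : ℝ, η = ((g : ℝ) / p - 4 * δ) / 8 := ⟨_, rfl⟩
  have hη0 : 0 < η := by rw [hη]; linarith
  have hη1 : 4 * (δ + 2 * η) ≤ (g : ℝ) / p := by rw [hη]; linarith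
  obtain ⟨s, hs⟩ := pow_unbounded_of_one_lt (p / (η * (α * β) ^ 2) + N) hp1
  have hs1 : p / (η * (α * β) ^ 2) ≤ (p : ℝ) ^ s := by
    have : (0 : ℝ) ≤ N := by positivity
    linarith
  have hs2 : (N : ℝ) ≤ (p : ℝ) ^ s := by
    have : (0 : ℝ) ≤ p / (η * (α * β) ^ 2) := by positivity
    linarith
  have hcd : Fintype.card ((Fin (r * k) → Fin 2) × (Fin (2 * s) → ZMod p)) =
      2 ^ (r * k) * p ^ (2 * s) := by
    rw [Fintype.card_prod, Fintype.card_fun, Fintype.card_fun, Fintype.card_fin,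
      Fintype.card_fin, Fintype.card_fin, ZMod.card]
  refine ⟨(Fin (r * k) → Fin 2) × (Fin (2 * s) → ZMod p), inferInstance, inferInstance,
    GT (TW r k W) (TW_comm hWs) p g r (2 * s), inferInstance, ?_, ?_⟩
  · rw [hcd]
    have h1 : N ≤ p ^ s := by exact_mod_cast hs2
    calc N ≤ p ^ s := h1
      _ ≤ p ^ (2 * s) := Nat.pow_le_pow_right hpp.pos (by omega)
      _ = 1 * p ^ (2 * s) := (one_mul _).symm
      _ ≤ 2 ^ (r * k) * p ^ (2 * s) := Nat.mul_le_mul_right _ (Nat.pow_pos (by norm_num))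
  · intro U hU hreg
    rw [hcd]
    push_cast
    by_contra hcon
    push Not at hcon
    have h1 : (((2 : ℕ) : ℝ) ^ (r * k)) ^ 2 * (p : ℝ) ^ (3 * s + 1) ≤ η * (α * U.card) ^ 2 := by
      push_cast
      have h2 : (α * (β * ((2 : ℝ) ^ (r * k) * (p : ℝ) ^ (2 * s)))) ^ 2 ≤
          (α * U.card) ^ 2 := by
        gcongr
      have h3 : (p : ℝ) ≤ (p : ℝ) ^ s * (η * (α * β) ^ 2) := by
        rwa [div_le_iff₀ (by positivity)] at hs1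
      calc ((2 : ℝ) ^ (r * k)) ^ 2 * (p : ℝ) ^ (3 * s + 1)
          = (((2 : ℝ) ^ (r * k)) ^ 2 * (p : ℝ) ^ (3 * s)) * p := by ring
        _ ≤ (((2 : ℝ) ^ (r * k)) ^ 2 * (p : ℝ) ^ (3 * s)) *
            ((p : ℝ) ^ s * (η * (α * β) ^ 2)) := by gcongr
        _ = η * (α * (β * ((2 : ℝ) ^ (r * k) * (p : ℝ) ^ (2 * s)))) ^ 2 := by ring
        _ ≤ _ := by gcongr
    have h2 := main4 (s := s) hWs hr hM hW hα hη0 hg hη1 hc U hU h1
      (fun A hA B hB h3 h4 => hreg A hA B hB h3 h4)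
    have h3 : 0 < (p : ℝ) ^ (2 * s) := by positivity
    have h4 : 1 * (p : ℝ) ^ (2 * s) <
        5 * α * (β * (2 : ℝ) ^ (r * k)) * (p : ℝ) ^ (2 * s) := mul_lt_mul_of_pos_right hβ2 h3
    have h5 : 5 * α * (β * (2 : ℝ) ^ (r * k)) * (p : ℝ) ^ (2 * s) =
        5 * (α * (β * ((2 : ℝ) ^ (r * k) * (p : ℝ) ^ (2 * s)))) := by ring
    have h6 : α * (β * ((2 : ℝ) ^ (r * k) * (p : ℝ) ^ (2 * s))) ≤ α * U.card :=
      mul_le_mul_of_nonneg_left hcon hα.le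
    linarith

/-- the choice of `k` -/
theorem numk2 {α : ℝ} (hα : 0 < α) (hα2 : α ≤ 1 / 10 ^ 18) : ∃ k : ℕ, 500000 ≤ k ∧
    α ^ (-(1 / 2) : ℝ) ≤ 2000 * k ∧ 1 ≤ 4000000 * (k : ℝ) ^ 2 * α ∧
    700 * ((1000 * k ^ 2 : ℕ) : ℝ) * α ≤ 1 := by
  obtain ⟨y, hy⟩ : ∃ y : ℝ, y = α ^ (-(1 / 2) : ℝ) := ⟨_, rfl⟩
  have hy0 : 0 < y := by rw [hy]; exact Real.rpow_pos_of_pos hα _
  have hy3 : y ^ 2 * α = 1 := by
    rw [hy, ← Real.rpow_natCast, ← Real.rpow_mul hα.le]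
    norm_num
    rw [Real.rpow_neg_one]
    field_simp
  have hy4 : 10 ^ 9 ≤ y := by
    by_contra hc
    push Not at hc
    have h1 : y ^ 2 < (10 ^ 9) ^ 2 := pow_lt_pow_left₀ hc hy0.le (by norm_num)
    have h2 : y ^ 2 * α < (10 ^ 9) ^ 2 * (1 / 10 ^ 18) := by
      calc y ^ 2 * α < (10 ^ 9) ^ 2 * α := mul_lt_mul_of_pos_right h1 hα
        _ ≤ _ := by gcongr
    rw [hy3] at h2
    norm_num at h2
  rw [← hy]
  have h1 : (⌊y / 1000⌋₊ : ℝ) ≤ y / 1000 := Nat.floor_le (by positivity)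
  have h2 : y / 1000 < (⌊y / 1000⌋₊ : ℝ) + 1 := Nat.lt_floor_add_one _
  obtain ⟨k, hk⟩ : ∃ k : ℕ, k = ⌊y / 1000⌋₊ := ⟨_, rfl⟩
  rw [← hk] at h1 h2
  have hk0 : (0 : ℝ) ≤ k := Nat.cast_nonneg k
  have h3 : y ≤ 2000 * k := by norm_num at hy4 ⊢; linarith
  refine ⟨k, ?_, h3, ?_, ?_⟩
  · have : (500000 : ℝ) ≤ k := by norm_num at hy4; linarith
    exact_mod_cast this
  · have h4 : y ^ 2 ≤ (2000 * k) ^ 2 := pow_le_pow_left₀ hy0.le h3 2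
    have h5 : y ^ 2 * α ≤ (2000 * k) ^ 2 * α := mul_le_mul_of_nonneg_right h4 hα.le
    rw [hy3] at h5
    nlinarith
  · have h4 : (k : ℝ) ^ 2 ≤ (y / 1000) ^ 2 := pow_le_pow_left₀ hk0 h1 2
    have h5 : (k : ℝ) ^ 2 * α ≤ (y / 1000) ^ 2 * α := mul_le_mul_of_nonneg_right h4 hα.le
    have h6 : (y / 1000) ^ 2 * α = 1 / 1000000 * (y ^ 2 * α) := by ring
    rw [h6, hy3] at h5
    push_cast
    nlinarith

/-- the last inequality -/
theorem numr2 {k r : ℕ} (hk : 500000 ≤ k) (hr : 1 ≤ r) {t : ℝ} (ht : t ≤ (r : ℝ) * k / 4) :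
    800000 * (k : ℝ) ^ 2 < Real.exp (-t) * 2 ^ (r * k) := by
  have hk' : (500000 : ℝ) ≤ k := by exact_mod_cast hk
  have hr' : (1 : ℝ) ≤ r := by exact_mod_cast hr
  have h1 : Real.exp ((r : ℝ) * k / 2) ≤ 2 ^ (r * k) := by
    have e1 : Real.exp (1 / 2) ≤ 2 := by
      have e2 := Real.exp_one_lt_d9
      have e3 : Real.exp (1 / 2) * Real.exp (1 / 2) = Real.exp 1 := by
        rw [← Real.exp_add]; norm_num
      by_contra hc
      push Not at hc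
      nlinarith
    have e4 : Real.exp ((r : ℝ) * k / 2) = Real.exp (1 / 2) ^ (r * k) := by
      rw [← Real.exp_nat_mul]
      congr 1
      push_cast
      ring
    rw [e4]
    exact pow_le_pow_left₀ (Real.exp_pos _).le e1 _
  have h2 : Real.exp ((r : ℝ) * k / 4) ≤ Real.exp (-t) * 2 ^ (r * k) := by
    calc Real.exp ((r : ℝ) * k / 4) ≤ Real.exp (-t + (r : ℝ) * k / 2) :=
          Real.exp_le_exp.2 (by linarith)
      _ = Real.exp (-t) * Real.exp ((r : ℝ) * k / 2) := Real.exp_add _ _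
      _ ≤ _ := mul_le_mul_of_nonneg_left h1 (Real.exp_pos _).le
  refine lt_of_lt_of_le ?_ h2
  have h3 : Real.exp ((k : ℝ) / 4) ≤ Real.exp ((r : ℝ) * k / 4) := by
    refine Real.exp_le_exp.2 ?_
    have : (k : ℝ) ≤ r * k := by nlinarith
    linarith
  refine lt_of_lt_of_le ?_ h3
  have h4 : ((k : ℝ) / 16) < Real.exp ((k : ℝ) / 16) := by
    have := Real.add_one_le_exp ((k : ℝ) / 16)
    linarith
  have h5 : Real.exp ((k : ℝ) / 4) = Real.exp ((k : ℝ) / 16) ^ 4 := by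
    rw [← Real.exp_nat_mul]
    congr 1
    push_cast
    ring
  rw [h5]
  have h6 : ((k : ℝ) / 16) ^ 4 < Real.exp ((k : ℝ) / 16) ^ 4 :=
    pow_lt_pow_left₀ h4 (by positivity) (by norm_num)
  refine lt_of_le_of_lt ?_ h6
  have h7 : (500000 : ℝ) ^ 2 ≤ (k : ℝ) ^ 2 := pow_le_pow_left₀ (by norm_num) hk' 2
  have h8 : (0 : ℝ) ≤ (k : ℝ) ^ 2 := by positivity
  have h9 : ((k : ℝ) / 16) ^ 4 = (k : ℝ) ^ 2 * (k : ℝ) ^ 2 / 65536 := by ring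
  rw [h9]
  nlinarith [mul_le_mul_of_nonneg_right h7 h8]

theorem final2 : ∃ c : ℝ, 0 < c ∧ ∀ α δ : ℝ, 0 < α → α ≤ c → 0 < δ → δ < 1 / 4 → ∀ N : ℕ,
    ∃ (V : Type) (_ : Fintype V) (_ : DecidableEq V) (G : SimpleGraph V)
      (_ : DecidableRel G.Adj), N ≤ Fintype.card V ∧
      ∀ U : Finset V, U.Nonempty →
        (∀ A, A ⊆ U → ∀ B, B ⊆ U → α * U.card ≤ A.card → α * U.card ≤ B.card →
          |(G.edgeDensity A B : ℝ) - (G.edgeDensity U U : ℝ)| ≤ δ) →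
        (U.card : ℝ) < Real.exp (-(c / δ * α ^ (-(1 / 2) : ℝ))) * (Fintype.card V : ℝ) := by
  refine ⟨1 / 10 ^ 18, by norm_num, fun α δ hα hαc hδ hδ2 N => ?_⟩
  obtain ⟨k, hk, hk2, hk4, hk3⟩ := numk2 hα hαc
  obtain ⟨p, g, r, hpp, hr, hg, hgδ, hrδ⟩ := pick hδ hδ2
  have : Fact p.Prime := ⟨hpp⟩
  obtain ⟨W, hWs, hW⟩ := exists_base2 k (by omega)
  have hk' : (500000 : ℝ) ≤ k := by exact_mod_cast hk
  have hM : 2 ≤ 1000 * k ^ 2 := by nlinarith [Nat.one_le_pow 2 k (by omega)]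
  refine fin_bound2 hWs hr hM hW hα hg hgδ hk3 (Real.exp_pos _) ?_ N
  have h1 : 1 / δ ≤ 32 * r := by
    have e : 1 / (32 * δ) = 1 / δ / 32 := by field_simp
    rw [e] at hrδ
    linarith
  have hr0 : (0 : ℝ) ≤ r := Nat.cast_nonneg r
  have h2 : 0 ≤ α ^ (-(1 / 2) : ℝ) := (Real.rpow_pos_of_pos hα _).le
  have hk0 : (0 : ℝ) ≤ k := Nat.cast_nonneg k
  have h3 : 1 / δ * α ^ (-(1 / 2) : ℝ) ≤ 32 * (r : ℝ) * (2000 * k) :=
    mul_le_mul h1 hk2 h2 (by positivity)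
  have h4 : 1 / 10 ^ 18 / δ * α ^ (-(1 / 2) : ℝ) =
      1 / 10 ^ 18 * (1 / δ * α ^ (-(1 / 2) : ℝ)) := by ring
  have h5 : 0 ≤ (r : ℝ) * k := by positivity
  have h6 := numr2 hk hr (t := 1 / 10 ^ 18 / δ * α ^ (-(1 / 2) : ℝ)) (by
    rw [h4]
    linarith)
  have h7 : 5 * α * (800000 * (k : ℝ) ^ 2) <
      5 * α * (Real.exp (-(1 / 10 ^ 18 / δ * α ^ (-(1 / 2) : ℝ))) * 2 ^ (r * k)) :=
    mul_lt_mul_of_pos_left h6 (by positivity)
  refine lt_of_le_of_lt ?_ h7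
  linarith

end Pool.Agent.RTY
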