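import Pool.Agent.RTY.Defs

/-!
# RTY, there are many visible nodes below `Y`

`Vn τ p`: node `(τ, p)` is visible and below `Y`. For `t < τ < k`, with
`v τ = Σ {a ∈ Y | A' ≤ cw τ (f a)} μ a`: `v τ - v (τ+1) ≤ 2 A' * #(nodes of level τ)`: the set
`{a ∈ Y | A' ≤ cw τ (f a), cw (τ+1) (f a) < A'}` is contained in the nodes of level `τ` counted by
`(univ.filter (Vn τ)).image (pre (τ - 1))` (two leaves have the same `pre (τ - 1)` iff `τ ≤ lev`, `τ ≥ 1`,
`τ ≤ k`), and in each such node it is contained in at most two children of weight `< A'`.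
`v (t+1) ≥ V / 8`, `v k = 0` (`hno`). So `V / 8 ≤ 2 A' * nn t Vn`, `nn ≥ V / (16 A') ≥ 100 M / 16 ≥ M`.
-/

set_option autoImplicit false

namespace Pool.Agent.RTY

open Finset Pool.Agent.RSU

variable {X : Type*} [Fintype X] [DecidableEq X]

omit [DecidableEq X] in
open Classical in
private theorem leak_fib {k : ℕ} (f : X → (Fin k → Fin 2)) (μ : X → ℝ) (h0 : ∀ a, 0 ≤ μ a) {A' : ℝ} {τ : ℕ}
    (hτ : τ < k) (L : Finset X) (hL : ∀ a ∈ L, cw f μ (τ + 1) (f a) < A') :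
    ∑ a ∈ L, μ a ≤ A' * ((L.image fun a => RTX.pre τ (f a)).card : ℝ) := by
  rw [← sum_fiberwise_of_maps_to (s := L) (t := L.image fun a => RTX.pre τ (f a)) (g := fun a => RTX.pre τ (f a))
    (fun a ha => mem_image_of_mem _ ha)]
  have h1 : ∀ q ∈ L.image (fun a => RTX.pre τ (f a)), ∑ a ∈ L.filter (fun a => RTX.pre τ (f a) = q), μ a ≤ A' := by
    intro q hq
    obtain ⟨a0, ha0, rfl⟩ := mem_image.1 hq
    refine le_trans ?_ (hL a0 ha0).le
    unfold cw
    refine sum_le_sum_of_subset_of_nonneg ?_ fun a _ _ => h0 a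
    intro a ha
    rw [mem_filter] at ha ⊢
    refine ⟨mem_univ _, le_lev hτ fun j hj => ?_⟩
    have h2 := congrFun ha.2 j
    unfold RTX.pre at h2
    rwa [if_pos (by omega), if_pos (by omega)] at h2
  refine (sum_le_card_nsmul _ _ _ h1).trans (le_of_eq ?_)
  rw [nsmul_eq_mul, mul_comm]

omit [Fintype X] [DecidableEq X] in
open Classical in
private theorem leak_card {k : ℕ} (f : X → (Fin k → Fin 2)) {τ : ℕ} (hτ0 : 1 ≤ τ) (hτ : τ < k) (L : Finset X)
    (I : Finset (Fin k → Fin 2)) (hI : ∀ a ∈ L, RTX.pre (τ - 1) (f a) ∈ I) :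
    (L.image fun a => RTX.pre τ (f a)).card ≤ 2 * I.card := by
  have h1 : (L.image fun a => RTX.pre τ (f a)).card ≤ (I ×ˢ (univ : Finset (Fin 2))).card := by
    refine card_le_card_of_injOn (fun q => (RTX.pre (τ - 1) q, q ⟨τ, hτ⟩)) ?_ ?_
    · intro q hq
      rw [mem_coe, mem_image] at hq
      obtain ⟨a, ha, rfl⟩ := hq
      rw [mem_coe, mem_product]
      refine ⟨?_, mem_univ _⟩
      have h2 : RTX.pre (τ - 1) (RTX.pre τ (f a)) = RTX.pre (τ - 1) (f a) := by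
        funext i
        unfold RTX.pre
        split_ifs with h3 h4
        · rfl
        · omega
        · rfl
      show RTX.pre (τ - 1) (RTX.pre τ (f a)) ∈ I
      rw [h2]
      exact hI a ha
    · intro q hq q' hq' he
      rw [mem_coe, mem_image] at hq hq'
      obtain ⟨a, ha, rfl⟩ := hq
      obtain ⟨b, hb, rfl⟩ := hq'
      have h3 := congrArg Prod.fst he
      have h4 := congrArg Prod.snd he
      simp only at h3 h4
      funext i
      rcases lt_trichotomy (i : ℕ) τ with h | h | h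
      · have h5 := congrFun h3 i
        have e1 : (i : ℕ) ≤ τ - 1 := by omega
        have e2 : (i : ℕ) ≤ τ := by omega
        simp only [RTX.pre, if_pos e1, if_pos e2] at h5 ⊢
        exact h5
      · have h6 : i = ⟨τ, hτ⟩ := Fin.ext h
        rw [h6]
        exact h4
      · unfold RTX.pre
        rw [if_neg (by omega), if_neg (by omega)]
  rw [card_product, card_univ, Fintype.card_fin] at h1
  omega

open Classical in
private theorem leak_step {k t : ℕ} (f : X → (Fin k → Fin 2)) (μ : X → ℝ) (h0 : ∀ a, 0 ≤ μ a) {A' : ℝ}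
    (hA0 : 0 < A') (Y : Finset X) {τ : ℕ} (hτ0 : t < τ) (hτ : τ < k) :
    ∑ a ∈ Y.filter (fun a => A' ≤ cw f μ τ (f a)), μ a ≤ ∑ a ∈ Y.filter (fun a => A' ≤ cw f μ (τ + 1) (f a)), μ a +
      2 * A' * (((univ.filter fun p : Fin k → Fin 2 => A' ≤ cw f μ τ p ∧ ∃ b ∈ Y, t + 1 ≤ lev (f b) p).image
        (RTX.pre (τ - 1))).card : ℝ) := by
  rw [← sum_filter_add_sum_filter_not (Y.filter (fun a => A' ≤ cw f μ τ (f a))) (fun a => A' ≤ cw f μ (τ + 1) (f a))]
  refine add_le_add ?_ ?_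
  · refine sum_le_sum_of_subset_of_nonneg ?_ fun a _ _ => h0 a
    intro a ha
    rw [mem_filter, mem_filter] at ha
    exact mem_filter.2 ⟨ha.1.1, ha.2⟩
  · refine (leak_fib (A' := A') f μ h0 hτ _ fun a ha => ?_).trans ?_
    · rw [mem_filter] at ha
      exact not_le.1 ha.2
    · have h1 := leak_card f (by omega : 1 ≤ τ) hτ
        ((Y.filter (fun a => A' ≤ cw f μ τ (f a))).filter (fun a => ¬ A' ≤ cw f μ (τ + 1) (f a)))
        ((univ.filter fun p : Fin k → Fin 2 => A' ≤ cw f μ τ p ∧ ∃ b ∈ Y, t + 1 ≤ lev (f b) p).image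
        (RTX.pre (τ - 1))) (fun a ha => by
          rw [mem_filter, mem_filter] at ha
          refine mem_image_of_mem _ (mem_filter.2 ⟨mem_univ _, ha.1.2, a, ha.1.1, ?_⟩)
          exact (by omega : t + 1 ≤ k).trans (le_lev le_rfl fun _ _ => rfl))
      have h2 : (((((Y.filter (fun a => A' ≤ cw f μ τ (f a))).filter (fun a => ¬ A' ≤ cw f μ (τ + 1) (f a))).image
        fun a => RTX.pre τ (f a)).card : ℕ) : ℝ) ≤ ((2 * ((univ.filter fun p : Fin k → Fin 2 => A' ≤ cw f μ τ p ∧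
          ∃ b ∈ Y, t + 1 ≤ lev (f b) p).image (RTX.pre (τ - 1))).card : ℕ) : ℝ) := by exact_mod_cast h1
      push_cast at h2
      calc _ ≤ A' * (2 * (((univ.filter fun p : Fin k → Fin 2 => A' ≤ cw f μ τ p ∧
          ∃ b ∈ Y, t + 1 ≤ lev (f b) p).image (RTX.pre (τ - 1))).card : ℝ)) := mul_le_mul_of_nonneg_left h2 hA0.le
        _ = _ := by ring

theorem leak {k M t : ℕ} (f : X → (Fin k → Fin 2)) (μ : X → ℝ) (h0 : ∀ a, 0 ≤ μ a)
    {V A' : ℝ} (hV : V = ∑ a, μ a) (hV0 : 0 < V) (hA0 : 0 < A') (hA : 100 * M * A' ≤ V)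
    (hno : ∀ a, cw f μ k (f a) < A') (ht : t < k) (Y : Finset X)
    (hY : ∀ a ∈ Y, ∀ b, t + 1 ≤ lev (f a) (f b) → b ∈ Y)
    (hYA : ∀ a ∈ Y, A' ≤ cw f μ (t + 1) (f a)) (hYV : V / 8 ≤ ∑ a ∈ Y, μ a) :
    M ≤ nn t (fun τ (p : Fin k → Fin 2) => A' ≤ cw f μ τ p ∧ ∃ b ∈ Y, t + 1 ≤ lev (f b) p) := by
  classical
  obtain ⟨N, hN⟩ : ∃ N : ℕ → ℕ, N = fun τ => ((univ.filter fun p : Fin k → Fin 2 => A' ≤ cw f μ τ p ∧
      ∃ b ∈ Y, t + 1 ≤ lev (f b) p).image (RTX.pre (τ - 1))).card := ⟨_, rfl⟩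
  obtain ⟨v, hv⟩ : ∃ v : ℕ → ℝ, v = fun τ => ∑ a ∈ Y.filter (fun a => A' ≤ cw f μ τ (f a)), μ a := ⟨_, rfl⟩
  have hstep : ∀ τ, t < τ → τ < k → v τ ≤ v (τ + 1) + 2 * A' * (N τ : ℝ) := by
    intro τ h1 h2
    rw [hv, hN]
    exact leak_step f μ h0 hA0 Y h1 h2
  have hind : ∀ m, t + 1 ≤ m → m ≤ k → v (t + 1) ≤ v m + 2 * A' * ∑ τ ∈ Ico (t + 1) m, (N τ : ℝ) := by
    intro m hm
    induction m, hm using Nat.le_induction with
    | base =>
      intro _
      simp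
    | succ m hm ih =>
      intro hmk
      have h1 := ih (by omega)
      have h2 := hstep m (by omega) (by omega)
      rw [sum_Ico_succ_top hm]
      linarith
  have hk := hind k (by omega) le_rfl
  have hvk : v k = 0 := by
    rw [hv]
    refine sum_eq_zero fun a ha => ?_
    rw [mem_filter] at ha
    exact absurd ha.2 (not_le.2 (hno a))
  have hvt : V / 8 ≤ v (t + 1) := by
    rw [hv]
    simp only
    rw [filter_true_of_mem hYA]
    exact hYV
  have hnn : nn t (fun τ (p : Fin k → Fin 2) => A' ≤ cw f μ τ p ∧ ∃ b ∈ Y, t + 1 ≤ lev (f b) p) =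
      ∑ τ ∈ Ioc t k, N τ := by
    rw [hN]
    unfold nn
    refine sum_congr rfl fun τ _ => ?_
    convert rfl
  rw [hnn]
  have hle : ∑ τ ∈ Ico (t + 1) k, (N τ : ℝ) ≤ ∑ τ ∈ Ioc t k, (N τ : ℝ) := by
    refine sum_le_sum_of_subset_of_nonneg ?_ fun _ _ _ => Nat.cast_nonneg _
    intro τ hτ
    rw [mem_Ico] at hτ
    rw [mem_Ioc]
    omega
  have h1 : 2 * A' * ∑ τ ∈ Ico (t + 1) k, (N τ : ℝ) ≤ 2 * A' * ∑ τ ∈ Ioc t k, (N τ : ℝ) :=
    mul_le_mul_of_nonneg_left hle (by positivity)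
  have h2 : (100 * M : ℝ) * A' ≤ (16 * ∑ τ ∈ Ioc t k, (N τ : ℝ)) * A' := by
    rw [hvk] at hk
    nlinarith
  have h3 := le_of_mul_le_mul_right h2 hA0
  have h4 : ((100 * M : ℕ) : ℝ) ≤ ((16 * ∑ τ ∈ Ioc t k, N τ : ℕ) : ℝ) := by
    push_cast
    exact h3
  have h5 : 100 * M ≤ 16 * ∑ τ ∈ Ioc t k, N τ := by exact_mod_cast h4
  omega

end Pool.Agent.RTY
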