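import Pool.Agent.RTY.Defs

/-!
# RTY, choice of the level and of the two sides (abstract: weights `μ` on `X`, `f : X → leaves`)

`heavy τ = {a | V / (5 M) ≤ cw τ (f a)}`; `cw τ p` does not increase with `τ` and depends only on the node
of level `τ` of `p`; `cw 0 p = V`. `Σ_{heavy 0} = V`, `heavy k = ∅` (as `cw k < A' ≤ V / (100 M)`). Let `t + 1` be
the first `τ` with `Σ_{heavy τ} μ ≤ V / 2` (`Nat.find`), so `Σ_{heavy t} μ > V / 2`.
`L = {a | cw (t+1) (f a) < V / (5 M)}` has weight `≥ V / 2`. `𝒜 = {a | A' ≤ cw (t+1) (f a)}` has weight `≥ 2V/5`: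
in every node of level `t` the elements of `heavy t \ 𝒜` have weight at most `2 A'` (two children), which is at most
a tenth of the weight of the node; so `heavy t \ 𝒜` has weight at most `V / 10` (`small`, double sum).
If `wt (heavy (t + 1)) ≥ V / 8` take `Y = heavy (t + 1)`. Otherwise `wt (𝒜 ∩ L) ≥ 2V/5 - V/8 ≥ V/8`; take a
union `Y ⊆ 𝒜 ∩ L` of nodes of level `t + 1`, minimal with weight `≥ V / 8`; then `wt Y ≤ V/8 + V/(5M) ≤ V/8 + V/10`,
`wt (L \ Y) ≥ V/2 - V/8 - V/10 ≥ V/4`.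
-/

set_option autoImplicit false

namespace Pool.Agent.RTY

open Finset Pool.Agent.RSU

variable {X : Type*} [Fintype X] [DecidableEq X]

private theorem ltrans {k τ : ℕ} (hτ : τ ≤ k) {p q r : Fin k → Fin 2} (h1 : τ ≤ lev p q)
    (h2 : τ ≤ lev q r) : τ ≤ lev p r := by
  rw [← Pool.Agent.RTU.ag_iff hτ] at h1 h2 ⊢
  intro j hj
  rw [h1 j hj, h2 j hj]

private theorem cw_congr {k : ℕ} (f : X → (Fin k → Fin 2)) (μ : X → ℝ) {τ : ℕ} (hτ : τ ≤ k)
    {p q : Fin k → Fin 2} (h : τ ≤ lev p q) : cw f μ τ p = cw f μ τ q := by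
  unfold cw
  congr 1
  apply filter_congr
  intro a _
  constructor
  · intro h1
    exact ltrans hτ h1 h
  · intro h1
    exact ltrans hτ h1 (by rw [lev_comm]; exact h)

/-- the elements of a part of the node of level `t` of `p` with small children have weight at most `2 A'` -/
private theorem two_children {k : ℕ} (f : X → (Fin k → Fin 2)) (μ : X → ℝ) (h0 : ∀ a, 0 ≤ μ a)
    {A' : ℝ} (hA0 : 0 < A') {t : ℕ} (ht : t < k) (p : Fin k → Fin 2) :
    ∑ a ∈ univ.filter (fun a => t ≤ lev (f a) p ∧ cw f μ (t + 1) (f a) < A'), μ a ≤ 2 * A' := by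
  have key : ∀ c : Fin 2, ∑ a ∈ univ.filter (fun a => (t ≤ lev (f a) p ∧
      cw f μ (t + 1) (f a) < A') ∧ f a ⟨t, ht⟩ = c), μ a ≤ A' := by
    intro c
    rcases (univ.filter (fun a => (t ≤ lev (f a) p ∧
      cw f μ (t + 1) (f a) < A') ∧ f a ⟨t, ht⟩ = c)).eq_empty_or_nonempty with h | ⟨a, ha⟩
    · rw [h, sum_empty]
      exact hA0.le
    · obtain ⟨-, ⟨h1, h2⟩, h3⟩ := mem_filter.1 ha
      refine le_trans ?_ h2.le
      unfold cw
      refine sum_le_sum_of_subset_of_nonneg ?_ fun b _ _ => h0 b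
      intro b hb
      obtain ⟨-, ⟨g1, g2⟩, g3⟩ := mem_filter.1 hb
      refine mem_filter.2 ⟨mem_univ _, ?_⟩
      rw [← Pool.Agent.RTU.ag_iff ht.le] at h1 g1
      refine le_lev ht ?_
      intro j hj
      rcases Nat.lt_succ_iff_lt_or_eq.1 hj with hj | hj
      · rw [h1 j hj, g1 j hj]
      · have : j = ⟨t, ht⟩ := Fin.ext hj
        rw [this, h3, g3]
  have hsplit : ∑ a ∈ univ.filter (fun a => t ≤ lev (f a) p ∧ cw f μ (t + 1) (f a) < A'), μ a =
      ∑ c : Fin 2, ∑ a ∈ univ.filter (fun a => (t ≤ lev (f a) p ∧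
        cw f μ (t + 1) (f a) < A') ∧ f a ⟨t, ht⟩ = c), μ a := by
    rw [← sum_fiberwise (univ.filter (fun a => t ≤ lev (f a) p ∧ cw f μ (t + 1) (f a) < A'))
      (fun a => f a ⟨t, ht⟩)]
    refine sum_congr rfl fun c _ => ?_
    rw [filter_filter]
  rw [hsplit, Fin.sum_univ_two]
  have := key 0
  have := key 1
  linarith

/-- double sum over the nodes of level `t` -/
private theorem small {k : ℕ} (f : X → (Fin k → Fin 2)) (μ : X → ℝ) (h0 : ∀ a, 0 ≤ μ a)
    {A' c η : ℝ} (hA0 : 0 < A') (hc : 0 < c) {t : ℕ} (ht : t < k) (hη : 2 * A' ≤ η * c) (hη0 : 0 ≤ η) :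
    ∑ a ∈ univ.filter (fun a => c ≤ cw f μ t (f a) ∧ cw f μ (t + 1) (f a) < A'), μ a ≤
      η * ∑ a, μ a := by
  have h1 : ∑ a ∈ univ.filter (fun a => c ≤ cw f μ t (f a) ∧ cw f μ (t + 1) (f a) < A'), μ a =
      ∑ a ∈ univ.filter (fun a => c ≤ cw f μ t (f a) ∧ cw f μ (t + 1) (f a) < A'),
        ∑ b, (if t ≤ lev (f b) (f a) then μ b * (μ a / cw f μ t (f a)) else 0) := by
    refine sum_congr rfl fun a ha => ?_
    obtain ⟨-, ha1, -⟩ := mem_filter.1 ha
    have hpos : 0 < cw f μ t (f a) := lt_of_lt_of_le hc ha1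
    rw [← sum_filter, ← sum_mul]
    change μ a = cw f μ t (f a) * (μ a / cw f μ t (f a))
    field_simp
  rw [h1, sum_comm, mul_sum]
  refine sum_le_sum fun b _ => ?_
  rw [← sum_filter]
  by_cases hb : c ≤ cw f μ t (f b)
  · have hpos : 0 < cw f μ t (f b) := lt_of_lt_of_le hc hb
    have h2 : ∑ a ∈ (univ.filter (fun a => c ≤ cw f μ t (f a) ∧
        cw f μ (t + 1) (f a) < A')).filter (fun a => t ≤ lev (f b) (f a)),
        μ b * (μ a / cw f μ t (f a)) =
        μ b / cw f μ t (f b) * ∑ a ∈ (univ.filter (fun a => c ≤ cw f μ t (f a) ∧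
        cw f μ (t + 1) (f a) < A')).filter (fun a => t ≤ lev (f b) (f a)), μ a := by
      rw [mul_sum]
      refine sum_congr rfl fun a ha => ?_
      obtain ⟨-, ha2⟩ := mem_filter.1 ha
      rw [cw_congr f μ ht.le ha2]
      ring
    rw [h2]
    have h3 : ∑ a ∈ (univ.filter (fun a => c ≤ cw f μ t (f a) ∧
        cw f μ (t + 1) (f a) < A')).filter (fun a => t ≤ lev (f b) (f a)), μ a ≤ 2 * A' := by
      refine le_trans ?_ (two_children f μ h0 hA0 ht (f b))
      refine sum_le_sum_of_subset_of_nonneg ?_ fun a _ _ => h0 a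
      intro a ha
      obtain ⟨ha1, ha2⟩ := mem_filter.1 ha
      obtain ⟨-, -, ha3⟩ := mem_filter.1 ha1
      exact mem_filter.2 ⟨mem_univ _, by rw [lev_comm]; exact ha2, ha3⟩
    calc μ b / cw f μ t (f b) * _ ≤ μ b / cw f μ t (f b) * (2 * A') :=
          mul_le_mul_of_nonneg_left h3 (div_nonneg (h0 b) hpos.le)
      _ ≤ μ b / cw f μ t (f b) * (η * cw f μ t (f b)) := by
          refine mul_le_mul_of_nonneg_left ?_ (div_nonneg (h0 b) hpos.le)
          exact hη.trans (mul_le_mul_of_nonneg_left hb hη0)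
      _ = η * μ b := by field_simp
  · have h2 : (univ.filter (fun a => c ≤ cw f μ t (f a) ∧
        cw f μ (t + 1) (f a) < A')).filter (fun a => t ≤ lev (f b) (f a)) = ∅ := by
      rw [filter_eq_empty_iff]
      intro a ha hab
      obtain ⟨-, ha1, -⟩ := mem_filter.1 ha
      rw [← cw_congr f μ ht.le hab] at ha1
      exact hb ha1
    rw [h2, sum_empty]
    exact mul_nonneg hη0 (h0 b)

theorem side {k M : ℕ} (hM : 2 ≤ M) (f : X → (Fin k → Fin 2)) (μ : X → ℝ) (h0 : ∀ a, 0 ≤ μ a)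
    {V A' : ℝ} (hV : V = ∑ a, μ a) (hV0 : 0 < V) (hA0 : 0 < A') (hA : 100 * M * A' ≤ V)
    (hno : ∀ a, cw f μ k (f a) < A') :
    ∃ t < k, ∃ Y : Finset X, (∀ a ∈ Y, ∀ b, t + 1 ≤ lev (f a) (f b) → b ∈ Y) ∧
      (∀ a ∈ Y, A' ≤ cw f μ (t + 1) (f a)) ∧ V / 8 ≤ ∑ a ∈ Y, μ a ∧
      V / 4 ≤ ∑ a ∈ univ.filter (fun a => a ∉ Y ∧ cw f μ (t + 1) (f a) < V / (5 * M)), μ a := by
  classical
  have hMr : (2 : ℝ) ≤ M := by exact_mod_cast hM
  have hM0 : (0 : ℝ) < M := by linarith
  set c : ℝ := V / (5 * M) with hcdef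
  have hc : 0 < c := by positivity
  have hcM : c * (5 * M) = V := by
    rw [hcdef]
    field_simp
  have hcV : c ≤ V / 10 := by nlinarith
  have hAc : 20 * A' ≤ c := by nlinarith
  -- level `0`
  have hW0 : ∀ p, cw f μ 0 p = V := by
    intro p
    unfold cw
    rw [hV]
    congr 1
    exact filter_true_of_mem fun a _ => Nat.zero_le _
  let Hv : ℕ → ℝ := fun τ => ∑ a ∈ univ.filter (fun a => c ≤ cw f μ τ (f a)), μ a
  have hH0 : Hv 0 = V := by
    change ∑ a ∈ univ.filter (fun a => c ≤ cw f μ 0 (f a)), μ a = V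
    rw [hV]
    congr 1
    refine filter_true_of_mem fun a _ => ?_
    rw [hW0]
    linarith
  have hHk : Hv k ≤ V / 2 := by
    change ∑ a ∈ univ.filter (fun a => c ≤ cw f μ k (f a)), μ a ≤ V / 2
    have : univ.filter (fun a => c ≤ cw f μ k (f a)) = (∅ : Finset X) := by
      rw [filter_eq_empty_iff]
      intro a _ h
      have := hno a
      linarith
    rw [this, sum_empty]
    linarith
  have hex : ∃ τ, Hv τ ≤ V / 2 := ⟨k, hHk⟩
  have hfk : Nat.find hex ≤ k := Nat.find_min' hex hHk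
  have hf0 : 0 < Nat.find hex := by
    rw [Nat.pos_iff_ne_zero]
    intro h
    have h1 := Nat.find_spec hex
    rw [h, hH0] at h1
    linarith
  obtain ⟨t, htf⟩ : ∃ t, Nat.find hex = t + 1 := ⟨Nat.find hex - 1, by omega⟩
  have ht : t < k := by omega
  have hH1 : Hv (t + 1) ≤ V / 2 := by
    rw [← htf]
    exact Nat.find_spec hex
  have hHt : V / 2 < Hv t := by
    have := Nat.find_min hex (m := t) (by omega)
    exact not_le.1 this
  have hbad : ∑ a ∈ univ.filter (fun a => c ≤ cw f μ t (f a) ∧ cw f μ (t + 1) (f a) < A'), μ a ≤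
      1 / 10 * V := by
    rw [hV]
    exact small f μ h0 hA0 hc ht (by linarith) (by norm_num)
  -- weight of the elements with `A' ≤ cw (t + 1)`
  have hAw : 2 / 5 * V ≤ ∑ a ∈ univ.filter (fun a => A' ≤ cw f μ (t + 1) (f a)), μ a := by
    have h1 : Hv t ≤ ∑ a ∈ univ.filter (fun a => A' ≤ cw f μ (t + 1) (f a)), μ a +
        ∑ a ∈ univ.filter (fun a => c ≤ cw f μ t (f a) ∧ cw f μ (t + 1) (f a) < A'), μ a := by
      change ∑ a ∈ univ.filter (fun a => c ≤ cw f μ t (f a)), μ a ≤ _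
      rw [← sum_union]
      · refine sum_le_sum_of_subset_of_nonneg ?_ fun a _ _ => h0 a
        intro a ha
        obtain ⟨-, ha1⟩ := mem_filter.1 ha
        rw [mem_union, mem_filter, mem_filter]
        rcases le_or_gt A' (cw f μ (t + 1) (f a)) with h | h
        · exact Or.inl ⟨mem_univ _, h⟩
        · exact Or.inr ⟨mem_univ _, ha1, h⟩
      · rw [disjoint_left]
        intro a ha hb
        obtain ⟨-, ha1⟩ := mem_filter.1 ha
        obtain ⟨-, -, hb1⟩ := mem_filter.1 hb
        linarith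
    linarith
  have hL : ∑ a ∈ univ.filter (fun a => cw f μ (t + 1) (f a) < c), μ a = V - Hv (t + 1) := by
    have h1 := sum_filter_add_sum_filter_not univ (fun a => c ≤ cw f μ (t + 1) (f a)) μ
    rw [← hV] at h1
    change ∑ a ∈ univ.filter (fun a => c ≤ cw f μ (t + 1) (f a)), μ a + _ = V at h1
    have h2 : ∑ a ∈ univ.filter (fun a => cw f μ (t + 1) (f a) < c), μ a =
        ∑ a ∈ univ.filter (fun a => ¬ c ≤ cw f μ (t + 1) (f a)), μ a := by
      congr 1
      apply filter_congr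
      intro a _
      exact not_le.symm
    rw [h2]
    change _ = V - ∑ a ∈ univ.filter (fun a => c ≤ cw f μ (t + 1) (f a)), μ a
    linarith
  refine ⟨t, ht, ?_⟩
  rcases le_or_gt (V / 8) (Hv (t + 1)) with h8 | h8
  · -- the heavy elements
    refine ⟨univ.filter (fun a => c ≤ cw f μ (t + 1) (f a)), ?_, ?_, h8, ?_⟩
    · intro a ha b hb
      obtain ⟨-, ha1⟩ := mem_filter.1 ha
      refine mem_filter.2 ⟨mem_univ _, ?_⟩
      rw [← cw_congr f μ ht hb]
      exact ha1
    · intro a ha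
      obtain ⟨-, ha1⟩ := mem_filter.1 ha
      linarith
    · have h1 : univ.filter (fun a => a ∉ univ.filter (fun a => c ≤ cw f μ (t + 1) (f a)) ∧
          cw f μ (t + 1) (f a) < c) = univ.filter (fun a => cw f μ (t + 1) (f a) < c) := by
        apply filter_congr
        intro a _
        constructor
        · exact fun h => h.2
        · intro h
          refine ⟨fun h' => ?_, h⟩
          exact absurd (mem_filter.1 h').2 (not_le.2 h)
      rw [h1, hL]
      linarith
  · -- a minimal union of nodes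
    let P : Finset X → Prop := fun Y => (∀ a ∈ Y, ∀ b, t + 1 ≤ lev (f a) (f b) → b ∈ Y) ∧
      (∀ a ∈ Y, A' ≤ cw f μ (t + 1) (f a) ∧ cw f μ (t + 1) (f a) < c) ∧ V / 8 ≤ ∑ a ∈ Y, μ a
    have hP0 : P (univ.filter (fun a => A' ≤ cw f μ (t + 1) (f a) ∧ cw f μ (t + 1) (f a) < c)) := by
      refine ⟨?_, ?_, ?_⟩
      · intro a ha b hb
        obtain ⟨-, ha1⟩ := mem_filter.1 ha
        refine mem_filter.2 ⟨mem_univ _, ?_⟩
        rw [← cw_congr f μ ht hb]
        exact ha1
      · intro a ha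
        exact (mem_filter.1 ha).2
      · have h1 : ∑ a ∈ univ.filter (fun a => A' ≤ cw f μ (t + 1) (f a)), μ a ≤
            ∑ a ∈ univ.filter (fun a => A' ≤ cw f μ (t + 1) (f a) ∧ cw f μ (t + 1) (f a) < c), μ a +
            Hv (t + 1) := by
          change _ ≤ _ + ∑ a ∈ univ.filter (fun a => c ≤ cw f μ (t + 1) (f a)), μ a
          rw [← sum_union]
          · refine sum_le_sum_of_subset_of_nonneg ?_ fun a _ _ => h0 a
            intro a ha
            obtain ⟨-, ha1⟩ := mem_filter.1 ha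
            rw [mem_union, mem_filter, mem_filter]
            rcases lt_or_ge (cw f μ (t + 1) (f a)) c with h | h
            · exact Or.inl ⟨mem_univ _, ha1, h⟩
            · exact Or.inr ⟨mem_univ _, h⟩
          · rw [disjoint_left]
            intro a ha hb
            obtain ⟨-, -, ha1⟩ := mem_filter.1 ha
            obtain ⟨-, hb1⟩ := mem_filter.1 hb
            linarith
        linarith
    obtain ⟨Y, hYm, hYmin⟩ := exists_min_image ((univ : Finset (Finset X)).filter P) card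
      ⟨_, mem_filter.2 ⟨mem_univ _, hP0⟩⟩
    obtain ⟨-, hY1, hY2, hY3⟩ := mem_filter.1 hYm
    have hYub : ∑ a ∈ Y, μ a ≤ V / 8 + c := by
      by_contra hcon
      push Not at hcon
      have hne : Y.Nonempty := by
        rw [nonempty_iff_ne_empty]
        rintro rfl
        rw [sum_empty] at hcon
        linarith
      obtain ⟨a, ha⟩ := hne
      have hsub : univ.filter (fun b => t + 1 ≤ lev (f b) (f a)) ⊆ Y := by
        intro b hb
        refine hY1 a ha b ?_
        rw [lev_comm]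
        exact (mem_filter.1 hb).2
      have hPY : P (Y \ univ.filter (fun b => t + 1 ≤ lev (f b) (f a))) := by
        refine ⟨?_, ?_, ?_⟩
        · intro b hb b' hb'
          obtain ⟨hb1, hb2⟩ := mem_sdiff.1 hb
          refine mem_sdiff.2 ⟨hY1 b hb1 b' hb', ?_⟩
          intro h
          refine hb2 (mem_filter.2 ⟨mem_univ _, ?_⟩)
          exact ltrans ht hb' (mem_filter.1 h).2
        · intro b hb
          exact hY2 b (mem_sdiff.1 hb).1
        · have h1 := sum_sdiff (f := μ) hsub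
          have h2 : ∑ b ∈ univ.filter (fun b => t + 1 ≤ lev (f b) (f a)), μ b < c := (hY2 a ha).2
          linarith
      have h3 := hYmin _ (mem_filter.2 ⟨mem_univ _, hPY⟩)
      have h4 : (Y \ univ.filter (fun b => t + 1 ≤ lev (f b) (f a))).card < Y.card := by
        refine card_lt_card ?_
        rw [ssubset_iff_of_subset sdiff_subset]
        refine ⟨a, ha, ?_⟩
        intro h
        refine (mem_sdiff.1 h).2 (mem_filter.2 ⟨mem_univ _, ?_⟩)
        rw [Pool.Agent.RTU.lev_self]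
        exact ht
      omega
    refine ⟨Y, hY1, fun a ha => (hY2 a ha).1, hY3, ?_⟩
    have h1 : ∑ a ∈ univ.filter (fun a => cw f μ (t + 1) (f a) < c), μ a ≤
        ∑ a ∈ univ.filter (fun a => a ∉ Y ∧ cw f μ (t + 1) (f a) < c), μ a + ∑ a ∈ Y, μ a := by
      rw [← sum_union]
      · refine sum_le_sum_of_subset_of_nonneg ?_ fun a _ _ => h0 a
        intro a ha
        obtain ⟨-, ha1⟩ := mem_filter.1 ha
        rw [mem_union, mem_filter]
        by_cases h : a ∈ Y
        · exact Or.inr h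
        · exact Or.inl ⟨mem_univ _, h, ha1⟩
      · rw [disjoint_left]
        intro a ha hb
        exact (mem_filter.1 ha).2.1 hb
    rw [hL] at h1
    linarith

end Pool.Agent.RTY
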