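import Pool.Agent.RTY.Vis
import Pool.Agent.RTY.Exc
import Pool.Agent.RTY.Side
import Pool.Agent.RTY.Leak
import Pool.Agent.RTY.Chain
import Pool.Agent.RTY.Choose

/-!
# RTY, kernel theorem (helper88)

`A = α V`, `f = cls ρ`. If a class `Cl k p` (all coordinates of the class `ρ` fixed) has weight `≥ 7 A` it
contains a leaf of weight `≥ 5 A` (`vis`), so `5 A ≤ h`. Otherwise `side`, `leak`, `chain`, `vis`, `exc`,
`choose_x` give a configuration for `Good2`; `avg2` gives a pair `(x i, node j)` with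
`d > γ (2ρ + 3/4)` and one with `d < γ (2ρ + 1/4)`; both are within `δ₁` of `D`, `4 δ₁ < γ`.
-/

set_option autoImplicit false

namespace Pool.Agent.RTY

open Finset Pool.Agent.RSU Pool.Agent.RTX
open Pool.Agent.RTU (Nd mem_Nd)

private theorem ultra {k : ℕ} {a b c : Fin k → Fin 2} {τ : ℕ} (h1 : τ ≤ lev a b)
    (h2 : τ ≤ lev b c) : τ ≤ lev a c := by
  have hk : τ ≤ k := h1.trans (lev_le a b)
  rw [← Pool.Agent.RTU.ag_iff hk] at h1 h2 ⊢
  intro j hj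
  rw [h1 j hj, h2 j hj]

private theorem cw_eq {X : Type*} [Fintype X] {k : ℕ} (f : X → (Fin k → Fin 2)) (μ : X → ℝ)
    {τ : ℕ} {p p' : Fin k → Fin 2} (h : τ ≤ lev p p') : cw f μ τ p = cw f μ τ p' := by
  unfold cw
  congr 1
  ext a
  simp only [mem_filter, mem_univ, true_and]
  constructor
  · exact fun h1 => ultra h1 h
  · exact fun h1 => ultra h1 (by rw [lev_comm]; exact h)

private theorem cw_anti {X : Type*} [Fintype X] {k : ℕ} (f : X → (Fin k → Fin 2)) (μ : X → ℝ)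
    (h0 : ∀ a, 0 ≤ μ a) {τ τ' : ℕ} (h : τ' ≤ τ) (p : Fin k → Fin 2) :
    cw f μ τ p ≤ cw f μ τ' p := by
  unfold cw
  refine sum_le_sum_of_subset_of_nonneg ?_ fun a _ _ => h0 a
  intro a ha
  rw [mem_filter] at ha ⊢
  exact ⟨ha.1, h.trans ha.2⟩

private theorem sum_biU {X ι : Type*} [DecidableEq X] [DecidableEq ι] (μ : X → ℝ)
    (h0 : ∀ a, 0 ≤ μ a) (s : Finset ι) (E : ι → Finset X) :
    ∑ a ∈ s.biUnion E, μ a ≤ ∑ j ∈ s, ∑ a ∈ E j, μ a := by
  induction s using Finset.induction_on with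
  | empty => simp
  | insert i s hi ih =>
    rw [biUnion_insert, sum_insert hi]
    have h1 : ∑ a ∈ E i ∪ s.biUnion E, μ a ≤ ∑ a ∈ E i, μ a + ∑ a ∈ s.biUnion E, μ a := by
      rw [← sum_union_inter]
      exact le_add_of_nonneg_right (sum_nonneg fun a _ => h0 a)
    linarith

theorem kerY {r k M : ℕ} {W : (Fin k → Fin 2) → (Fin k → Fin 2) → Bool}
    {γ α δ₁ δ₂ D V h : ℝ} {μ : (Fin (r * k) → Fin 2) → ℝ} (hr : 1 ≤ r) (hM : 2 ≤ M)
    (hW : Good2 M W) (hα : 0 < α) (h12 : δ₁ < δ₂) (hγ : 4 * δ₂ ≤ γ)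
    (h0 : ∀ a, 0 ≤ μ a) (hμ : ∀ a, μ a ≤ h) (hV : V = wt μ univ) (hV0 : 0 < V)
    (hc : 700 * M * α ≤ 1)
    (H : ∀ X Y : Finset (Fin (r * k) → Fin 2), α * V ≤ wt μ X → α * V ≤ wt μ Y →
      |E1 (TW r k W) r γ μ X Y - D * (wt μ X * wt μ Y)| ≤ δ₁ * (wt μ X * wt μ Y)) :
    5 * (α * V) ≤ h := by
  classical
  have hM2 : (2 : ℝ) ≤ M := by exact_mod_cast hM
  have hA : 0 < α * V := mul_pos hα hV0
  have hα1 : α ≤ 1 := by nlinarith
  have hα2 : α * V ≤ V := by nlinarith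
  have hδ : 0 ≤ δ₁ := by
    have e1 := H univ univ (by rw [← hV]; exact hα2) (by rw [← hV]; exact hα2)
    have e2 := (abs_nonneg _).trans e1
    rw [← hV] at e2
    by_contra h'
    push Not at h'
    have := mul_neg_of_neg_of_pos h' (mul_pos hV0 hV0)
    linarith
  have hγ0 : 0 ≤ γ := by linarith
  have hγ2 : 2 * δ₂ < γ := by linarith
  obtain ⟨ρ, hρ, hw, hv⟩ := vis hr hγ0 hα h12 hγ2 h0 hV0 H
  obtain ⟨f, hf⟩ : ∃ f : (Fin (r * k) → Fin 2) → (Fin k → Fin 2), f = cls r k ρ := ⟨_, rfl⟩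
  have hcw : ∀ τ p, cw f μ τ p = wt μ (Cl r k ρ τ p) := by
    intro τ p
    rw [hf]
    rfl
  by_contra hcon
  push Not at hcon
  have hno : ∀ a, cw f μ k (f a) < 7 * (α * V) := by
    intro a
    by_contra hc'
    push Not at hc'
    rw [hcw] at hc'
    obtain ⟨z, hz1, -, hz3⟩ := hv k le_rfl (f a) (by linarith)
    have h1 : wt μ (Cl r k ρ k (f a)) ≤ wt μ (Nd z (lt r k ρ k)) + 2 * (α * V) := by
      refine (wt_sdiff_add h0 _ (Nd z (lt r k ρ k))).trans (add_le_add le_rfl ?_)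
      exact hz3
    have h2 : wt μ (Nd z (lt r k ρ k)) ≤ h := by
      have e1 : lt r k ρ k = r * k := by
        unfold lt
        rw [mul_comm k r]
        omega
      have e2 : Nd z (lt r k ρ k) ⊆ {z} := by
        intro a ha
        rw [e1, mem_Nd] at ha
        rw [mem_singleton]
        funext i
        exact (Pool.Agent.RTU.ag_iff le_rfl).2 ha i i.2
      refine (Pool.Agent.RTU.wt_mono h0 e2).trans ?_
      simpa [wt] using hμ z
    linarith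
  have hA7 : 100 * (M : ℝ) * (7 * (α * V)) ≤ V := by
    have := mul_le_mul_of_nonneg_right hc hV0.le
    linarith
  have hV' : V = ∑ a, μ a := hV
  obtain ⟨t, htk, Y, hY1, hY2, hY3, hY4⟩ := side hM f μ h0 hV' hV0 (by positivity) hA7 hno
  have hn := leak f μ h0 hV' hV0 (by positivity) hA7 hno htk Y hY1 hY2 hY3
  obtain ⟨N, hN, y, J, B, c1, c2, c3, c4, c5, c6, c7⟩ := chain (M := M) (t := t) _
    (by
      intro τ p p' hτ hp hpp
      obtain ⟨hp1, b, hb, hp2⟩ := hp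
      refine ⟨by rw [← cw_eq f μ hpp]; exact hp1, b, hb, ?_⟩
      exact ultra hp2 (le_trans hτ hpp))
    (by
      intro τ τ' p hp _ hτ
      exact ⟨hp.1.trans (cw_anti f μ h0 hτ p), hp.2⟩) hn
  have hz : ∀ j, ∃ z : Fin (r * k) → Fin 2, α * V ≤ wt μ (Nd z (lt r k ρ (J j))) ∧
      J j ≤ lev (f z) (y j) := by
    intro j
    have h1 := (c7 j).1
    rw [hcw] at h1
    obtain ⟨z, hz1, hz2, -⟩ := hv (J j) (c5 j) (y j) (by linarith)
    exact ⟨z, hz1, by rw [hf]; exact hz2⟩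
  choose z hz1 hz2 using hz
  have hl : ∀ j, lt r k ρ (J j) ≤ r * k := fun j => by
    unfold lt
    omega
  have hE : ∀ j, ∃ E : Finset (Fin (r * k) → Fin 2), wt μ E ≤ 4 * (α * V) ∧
      ∀ x ∉ E, x ∉ Nd (z j) (lt r k ρ (J j)) →
      |γ * ∑ a ∈ Nd (z j) (lt r k ρ (J j)), μ a * ((W (cls r k ρ x) (cls r k ρ a)).toNat : ℝ) -
        (D - 2 * γ * ρ) * wt μ (Nd (z j) (lt r k ρ (J j)))| ≤
        δ₁ * wt μ (Nd (z j) (lt r k ρ (J j))) := fun j =>
    exc hγ0 hα h12 h0 hV0 H hw (z j) (hl j) (hz1 j)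
  choose E hE1 hE2 using hE
  have hNM : (N : ℝ) ≤ M := by exact_mod_cast hN
  have hEs : ∑ a ∈ univ.biUnion E, μ a ≤ V / 20 := by
    have e1 : ∑ a ∈ univ.biUnion E, μ a ≤ ∑ j, ∑ a ∈ E j, μ a := sum_biU μ h0 univ E
    have e2 : ∑ j, ∑ a ∈ E j, μ a ≤ ∑ _j : Fin N, 4 * (α * V) := sum_le_sum fun j _ => hE1 j
    rw [sum_const, card_univ, Fintype.card_fin, nsmul_eq_mul] at e2
    have e3 : (N : ℝ) * (4 * (α * V)) ≤ M * (4 * (α * V)) := by gcongr
    linarith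
  obtain ⟨x, hx1, hx2⟩ := choose_x (by omega) f μ h0 hV0 _ (univ.biUnion E) hY4
    (fun a ha => ((mem_filter.1 ha).2).2) hEs
  have hxy : ∀ i j, lev (f (x i)) (y j) ≤ t := by
    intro i j
    by_contra hlt
    push Not at hlt
    obtain ⟨b, hb, hb2⟩ := (c7 j).2
    have h1 := hY1 b hb (x i) (ultra hb2 (by rw [lev_comm]; exact hlt))
    exact ((mem_filter.1 (hx1 i).1).2).1 h1
  have hcfg : Cfg t (fun i => f (x i)) y J B := ⟨hx2, hxy, c1, c2, c3, c4, c5, c6⟩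
  -- the pairs
  have hpair : ∀ b : Bool, ∃ (i : Fin M) (j : Fin N),
      4 * ∑ a ∈ (Nd (z j) (lt r k ρ (J j))).filter
        (fun a => decide (W (f (x i)) (f a) ≠ b) = true), μ a <
      ∑ a ∈ Nd (z j) (lt r k ρ (J j)), μ a := by
    intro b
    obtain ⟨S, hS⟩ := hW N hN t htk.le (fun i => f (x i)) y J B hcfg b
    obtain ⟨p, -, hp⟩ := avg2 μ h0 (fun j => Nd (z j) (lt r k ρ (J j)))
      (fun j => lt_of_lt_of_le hA (hz1 j)) S (fun i a => decide (W (f (x i)) (f a) ≠ b)) (by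
        intro a ha
        have h1 := hS (fun j => f (a j)) (fun j => by
          have h2 := ha j
          rw [mem_Nd] at h2
          have h3 := cls_of_lev hρ (c5 j) h2
          rw [hf] at hz2 ⊢
          exact ultra h3 (hz2 j))
        simpa using h1)
    exact ⟨p.1, p.2, hp⟩
  have hgood : ∀ i j, |γ * ∑ a ∈ Nd (z j) (lt r k ρ (J j)), μ a * ((W (f (x i)) (f a)).toNat : ℝ) -
        (D - 2 * γ * ρ) * wt μ (Nd (z j) (lt r k ρ (J j)))| ≤
        δ₁ * wt μ (Nd (z j) (lt r k ρ (J j))) := by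
    intro i j
    rw [hf]
    refine hE2 j (x i) ?_ ?_
    · intro h1
      exact (hx1 i).2 (mem_biUnion.2 ⟨j, mem_univ j, h1⟩)
    · intro h1
      rw [mem_Nd] at h1
      have h2 := cls_of_lev hρ (c5 j) h1
      rw [← hf] at h2
      have h3 := ultra h2 (hz2 j)
      have h4 := hxy i j
      have h5 := c3 j
      have h6 := c4 j
      omega
  obtain ⟨i1, j1, h1⟩ := hpair true
  obtain ⟨i0, j0, h2⟩ := hpair false
  have g1 := (abs_le.1 (hgood i1 j1)).2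
  have g0 := (abs_le.1 (hgood i0 j0)).1
  have m1 : 0 < wt μ (Nd (z j1) (lt r k ρ (J j1))) := lt_of_lt_of_le hA (hz1 j1)
  have m0 : 0 < wt μ (Nd (z j0) (lt r k ρ (J j0))) := lt_of_lt_of_le hA (hz1 j0)
  have s1 : ∑ a ∈ (Nd (z j1) (lt r k ρ (J j1))).filter
      (fun a => decide (W (f (x i1)) (f a) ≠ true) = true), μ a =
      wt μ (Nd (z j1) (lt r k ρ (J j1))) -
        ∑ a ∈ Nd (z j1) (lt r k ρ (J j1)), μ a * ((W (f (x i1)) (f a)).toNat : ℝ) := by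
    unfold wt
    rw [sum_filter, ← sum_sub_distrib]
    refine sum_congr rfl fun a _ => ?_
    cases W (f (x i1)) (f a) <;> simp
  have s0 : ∑ a ∈ (Nd (z j0) (lt r k ρ (J j0))).filter
      (fun a => decide (W (f (x i0)) (f a) ≠ false) = true), μ a =
        ∑ a ∈ Nd (z j0) (lt r k ρ (J j0)), μ a * ((W (f (x i0)) (f a)).toNat : ℝ) := by
    rw [sum_filter]
    refine sum_congr rfl fun a _ => ?_
    cases W (f (x i0)) (f a) <;> simp
  rw [s1] at h1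
  rw [s0] at h2
  change _ < wt μ (Nd (z j1) (lt r k ρ (J j1))) at h1
  change _ < wt μ (Nd (z j0) (lt r k ρ (J j0))) at h2
  obtain ⟨w1, hw1⟩ : ∃ w1, w1 = ∑ a ∈ Nd (z j1) (lt r k ρ (J j1)),
    μ a * ((W (f (x i1)) (f a)).toNat : ℝ) := ⟨_, rfl⟩
  obtain ⟨w0, hw0⟩ : ∃ w0, w0 = ∑ a ∈ Nd (z j0) (lt r k ρ (J j0)),
    μ a * ((W (f (x i0)) (f a)).toNat : ℝ) := ⟨_, rfl⟩
  obtain ⟨M1, hM1⟩ : ∃ M1, M1 = wt μ (Nd (z j1) (lt r k ρ (J j1))) := ⟨_, rfl⟩
  obtain ⟨M0, hM0⟩ : ∃ M0, M0 = wt μ (Nd (z j0) (lt r k ρ (J j0))) := ⟨_, rfl⟩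
  rw [← hw1, ← hM1] at h1 g1
  rw [← hw0, ← hM0] at h2 g0
  rw [← hM1] at m1
  rw [← hM0] at m0
  have hγp : 0 < γ := by linarith
  have k1 : γ * (3 / 4) < D - 2 * γ * ρ + δ₁ := by
    have e1 : γ * (3 / 4) * M1 < γ * w1 := by nlinarith
    have e2 : γ * (3 / 4) * M1 < (D - 2 * γ * ρ + δ₁) * M1 := by nlinarith
    exact lt_of_mul_lt_mul_right e2 m1.le
  have k0 : D - 2 * γ * ρ - δ₁ < γ * (1 / 4) := by
    have e1 : γ * w0 < γ * (1 / 4) * M0 := by nlinarith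
    have e2 : (D - 2 * γ * ρ - δ₁) * M0 < γ * (1 / 4) * M0 := by nlinarith
    exact lt_of_mul_lt_mul_right e2 m0.le
  linarith

end Pool.Agent.RTY
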