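import Pool.Agent.RTY.Cls

/-!
# RTY, heavy classes contain visible nodes

`A = α V`. A node (`Nd z l`, level `l`) is visible if its weight is `≥ A`. Windows: `Win`; all windows have
the same residue `ρ` modulo `r` (`RTU.win_mod`, twice; if there is no window take `ρ = 0`).
Claim, by induction on `τ ≤ k`, for every `p`: `wt (Cl τ p) ≤ 6 A`, or there is a visible node `Nd z (lt τ)`
with `τ ≤ lev (cls z) p`.
(L) If `Nd z (lt τ)` is visible and `τ ≤ lev (cls z) p` then `wt (Cl τ p \ Nd z (lt τ)) ≤ 2 A`: for `a` in this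
set `lev a z < lt τ` and (`lev_of_cls`; `cls a`, `cls z` agree below `τ` because both agree with `p`)
`lev a z % r ≠ ρ`, so it is not a window: `a ∈ Ls`; `RTX.loss`.
`τ = 0`: `Cl 0 p = univ = Nd z 0`; if `wt univ < A` done; else `RTX.leak_block` from level `0` to `lt 0`
(no window of residue `ρ` below `ρ`): if no leaf of `univ` is in `Vs (lt 0)` then `wt univ ≤ 4 A`, else a leaf
`z ∈ Vs (lt 0)`.
Step: if `wt (Cl τ p) ≤ 6 A` then also `wt (Cl (τ+1) p) ≤ 6 A` (subset). Else `z` for `τ`; `τ < k` so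
`lt τ = τ r + ρ < r k`; child `u = Nd (update z _ (p τ)) (τ r + ρ + 1)` (`Cl_child`);
`Cl (τ+1) p ⊆ (Cl τ p \ Nd z (lt τ)) ∪ u`. If `wt u < A`: `wt ≤ 3 A`. Else `RTX.leak_block` from
`τ r + ρ + 1` to `lt (τ + 1)` (no windows in between: residues `≠ ρ`): if a leaf of `u` is in
`Vs (lt (τ+1))` it is the new `z` (`cls_of_lev`, it is in `Cl (τ+1) p`), else `wt u ≤ 4 A`, `wt ≤ 6 A`.
(`n = 2` in `RTX`.)
-/

set_option autoImplicit false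

namespace Pool.Agent.RTY

open Finset Pool.Agent.RSU Pool.Agent.RTX
open Pool.Agent.RTU (Nd mem_Nd Low High Win win_mod Ls mem_Ls)

/-- leaves which both agree with `p` before `τ` agree with each other before `τ` -/
private theorem lev_tri {K n : ℕ} {x y p : Fin K → Fin n} {τ : ℕ} (hτ : τ ≤ K) (hx : τ ≤ lev x p)
    (hy : τ ≤ lev y p) : τ ≤ lev x y := by
  rw [← Pool.Agent.RTU.ag_iff hτ] at hx hy ⊢
  intro j hj
  rw [hx j hj, hy j hj]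

private theorem lt_le (r k ρ τ : ℕ) : lt r k ρ τ ≤ r * k := min_le_right _ _

private theorem mem_Cl {r k ρ τ : ℕ} {p : Fin k → Fin 2} {a : Fin (r * k) → Fin 2} :
    a ∈ Cl r k ρ τ p ↔ τ ≤ lev (cls r k ρ a) p := by
  simp [Cl]

private theorem exists_res {r : ℕ} {γ δ₂ D : ℝ} (hr : 1 ≤ r) (hγ0 : 0 ≤ γ) (hγ2 : 2 * δ₂ < γ) :
    ∃ ρ < r, ∀ i, Win r γ δ₂ D i → i % r = ρ := by
  by_cases h : ∃ i, Win r γ δ₂ D i
  · obtain ⟨i, hi⟩ := h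
    exact ⟨i % r, Nat.mod_lt _ (by omega), fun j hj =>
      le_antisymm (win_mod hγ0 hγ2 hj hi) (win_mod hγ0 hγ2 hi hj)⟩
  · exact ⟨0, by omega, fun j hj => absurd ⟨j, hj⟩ h⟩

private theorem vis_L {r k : ℕ} {W : (Fin k → Fin 2) → (Fin k → Fin 2) → Bool}
    {γ α δ₁ δ₂ D V : ℝ} {μ : (Fin (r * k) → Fin 2) → ℝ} (hγ0 : 0 ≤ γ) (hα : 0 < α)
    (h12 : δ₁ < δ₂) (h0 : ∀ a, 0 ≤ μ a) (hV0 : 0 < V)
    (H : ∀ X Y : Finset (Fin (r * k) → Fin 2), α * V ≤ wt μ X → α * V ≤ wt μ Y →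
      |E1 (TW r k W) r γ μ X Y - D * (wt μ X * wt μ Y)| ≤ δ₁ * (wt μ X * wt μ Y))
    {ρ : ℕ} (hρ : ρ < r) (hw : ∀ i, Win r γ δ₂ D i → i % r = ρ) {τ : ℕ} (hτ : τ ≤ k)
    {p : Fin k → Fin 2} {z : Fin (r * k) → Fin 2} (hz : α * V ≤ wt μ (Nd z (lt r k ρ τ)))
    (hp : τ ≤ lev (cls r k ρ z) p) :
    wt μ (Cl r k ρ τ p \ Nd z (lt r k ρ τ)) ≤ 2 * (α * V) := by
  refine (Pool.Agent.RTU.wt_mono h0 ?_).trans
    (loss hγ0 hα h12 h0 hV0 H z (lt_le r k ρ τ) hz)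
  intro a ha
  rw [mem_sdiff, mem_Cl, mem_Nd, not_le] at ha
  rw [mem_Ls]
  refine ⟨ha.2, fun hwin => ?_⟩
  exact lev_of_cls hρ hτ (lev_tri hτ ha.1 hp) ha.2 (hw _ hwin)

private theorem vis_blk {r k : ℕ} {W : (Fin k → Fin 2) → (Fin k → Fin 2) → Bool}
    {γ α δ₁ δ₂ D V : ℝ} {μ : (Fin (r * k) → Fin 2) → ℝ} (hγ0 : 0 ≤ γ) (hα : 0 < α)
    (h12 : δ₁ < δ₂) (h0 : ∀ a, 0 ≤ μ a) (hV0 : 0 < V)
    (H : ∀ X Y : Finset (Fin (r * k) → Fin 2), α * V ≤ wt μ X → α * V ≤ wt μ Y →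
      |E1 (TW r k W) r γ μ X Y - D * (wt μ X * wt μ Y)| ≤ δ₁ * (wt μ X * wt μ Y))
    (x : Fin (r * k) → Fin 2) {b b' : ℕ} (hbb : b ≤ b') (hb' : b' ≤ r * k)
    (hw : ∀ i, b ≤ i → i < b' → ¬ Win r γ δ₂ D i) (hx : 4 * (α * V) < wt μ (Nd x b)) :
    ∃ z ∈ Nd x b, α * V ≤ wt μ (Nd z b') := by
  have hA : 0 < α * V := mul_pos hα hV0
  have h1 := leak_block hγ0 hα h12 h0 hV0 H x hbb hb' hw (by linarith)
  by_contra hc
  push Not at hc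
  have h2 : Nd x b ⊆ Nd x b \ Vs μ (α * V) b' := by
    intro a ha
    rw [mem_sdiff, mem_Vs]
    exact ⟨ha, not_le.2 (hc a ha)⟩
  have h3 := Pool.Agent.RTU.wt_mono h0 h2
  have h4 : (((2 : ℕ) : ℝ) + 2) * (α * V) = 4 * (α * V) := by norm_num
  rw [h4] at h1
  linarith

private theorem vis_aux {r k : ℕ} {W : (Fin k → Fin 2) → (Fin k → Fin 2) → Bool}
    {γ α δ₁ δ₂ D V : ℝ} {μ : (Fin (r * k) → Fin 2) → ℝ} (hr : 1 ≤ r) (hγ0 : 0 ≤ γ) (hα : 0 < α)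
    (h12 : δ₁ < δ₂) (h0 : ∀ a, 0 ≤ μ a) (hV0 : 0 < V)
    (H : ∀ X Y : Finset (Fin (r * k) → Fin 2), α * V ≤ wt μ X → α * V ≤ wt μ Y →
      |E1 (TW r k W) r γ μ X Y - D * (wt μ X * wt μ Y)| ≤ δ₁ * (wt μ X * wt μ Y))
    {ρ : ℕ} (hρ : ρ < r) (hw : ∀ i, Win r γ δ₂ D i → i % r = ρ) (τ : ℕ) (hτ : τ ≤ k)
    (p : Fin k → Fin 2) (hp : 6 * (α * V) < wt μ (Cl r k ρ τ p)) :
    ∃ z : Fin (r * k) → Fin 2, α * V ≤ wt μ (Nd z (lt r k ρ τ)) ∧ τ ≤ lev (cls r k ρ z) p := by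
  have hA : 0 < α * V := mul_pos hα hV0
  induction τ with
  | zero =>
    have h1 : wt μ (Cl r k ρ 0 p) ≤ wt μ (Nd (fun _ => 0) 0) := by
      refine Pool.Agent.RTU.wt_mono h0 fun a _ => ?_
      rw [mem_Nd]
      exact Nat.zero_le _
    obtain ⟨z, -, hz⟩ := vis_blk hγ0 hα h12 h0 hV0 H (fun _ => 0) (Nat.zero_le (lt r k ρ 0))
      (lt_le r k ρ 0) (by
        intro i _ hi hwin
        have h2 : i < ρ := by
          have : lt r k ρ 0 ≤ 0 * r + ρ := min_le_left _ _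
          omega
        have h3 := hw i hwin
        rw [Nat.mod_eq_of_lt (by omega)] at h3
        omega) (by linarith)
    exact ⟨z, hz, Nat.zero_le _⟩
  | succ τ ih =>
    have hsub : Cl r k ρ (τ + 1) p ⊆ Cl r k ρ τ p := by
      intro a ha
      rw [mem_Cl] at ha ⊢
      omega
    obtain ⟨z, hz, hzp⟩ := ih (by omega)
      (lt_of_lt_of_le hp (Pool.Agent.RTU.wt_mono h0 hsub))
    have hτk : τ < k := by omega
    have hl : τ * r + ρ < r * k := by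
      have h1 : (τ + 1) * r ≤ k * r := Nat.mul_le_mul_right r hτ
      have h2 : (τ + 1) * r = τ * r + r := by ring
      have h3 : k * r = r * k := mul_comm _ _
      omega
    have hlt : lt r k ρ τ = τ * r + ρ := min_eq_left hl.le
    have hL := vis_L hγ0 hα h12 h0 hV0 H hρ hw hτk.le hz hzp
    have hsub2 : Cl r k ρ (τ + 1) p ⊆ (Cl r k ρ τ p \ Nd z (lt r k ρ τ)) ∪
        Nd (Function.update z ⟨τ * r + ρ, hl⟩ (p ⟨τ, hτk⟩)) (τ * r + ρ + 1) := by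
      intro a ha
      rw [mem_union, mem_sdiff, mem_Nd, mem_Nd, hlt]
      by_cases h1 : τ * r + ρ ≤ lev a z
      · exact Or.inr ((Cl_child hρ hτk hl hzp a h1).1 ha)
      · exact Or.inl ⟨hsub ha, h1⟩
    have h1 := (Pool.Agent.RTU.wt_mono h0 hsub2).trans (Pool.Agent.RTU.wt_union_le h0 _ _)
    obtain ⟨z', hz', hz'A⟩ := vis_blk hγ0 hα h12 h0 hV0 H
      (Function.update z ⟨τ * r + ρ, hl⟩ (p ⟨τ, hτk⟩)) (b := τ * r + ρ + 1)
      (b' := lt r k ρ (τ + 1)) (by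
        have h2 : (τ + 1) * r = τ * r + r := by ring
        exact le_min (by omega) hl) (lt_le r k ρ (τ + 1)) (by
        intro i hi hi' hwin
        have h2 : i < (τ + 1) * r + ρ := lt_of_lt_of_le hi' (min_le_left _ _)
        have h3 := hw i hwin
        have h4 : r * (i / r) + i % r = i := Nat.div_add_mod i r
        rw [h3] at h4
        have h5 : τ * r < (i / r) * r := by
          rw [mul_comm (i / r) r]
          omega
        have h6 : (i / r) * r < (τ + 1) * r := by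
          rw [mul_comm (i / r) r]
          omega
        have h7 := lt_of_mul_lt_mul_right h5 (Nat.zero_le r)
        have h8 := lt_of_mul_lt_mul_right h6 (Nat.zero_le r)
        omega) (by linarith)
    refine ⟨z', hz'A, ?_⟩
    rw [mem_Nd] at hz'
    have h2 : τ * r + ρ ≤ lev z' z := ((Pool.Agent.RTU.upd_succ hl _).1 hz').1
    exact mem_Cl.1 ((Cl_child hρ hτk hl hzp z' h2).2 hz')

theorem vis {r k : ℕ} {W : (Fin k → Fin 2) → (Fin k → Fin 2) → Bool}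
    {γ α δ₁ δ₂ D V : ℝ} {μ : (Fin (r * k) → Fin 2) → ℝ} (hr : 1 ≤ r) (hγ0 : 0 ≤ γ) (hα : 0 < α)
    (h12 : δ₁ < δ₂) (hγ2 : 2 * δ₂ < γ) (h0 : ∀ a, 0 ≤ μ a) (hV0 : 0 < V)
    (H : ∀ X Y : Finset (Fin (r * k) → Fin 2), α * V ≤ wt μ X → α * V ≤ wt μ Y →
      |E1 (TW r k W) r γ μ X Y - D * (wt μ X * wt μ Y)| ≤ δ₁ * (wt μ X * wt μ Y)) :
    ∃ ρ < r, (∀ i, Win r γ δ₂ D i → i % r = ρ) ∧ ∀ τ ≤ k, ∀ p : Fin k → Fin 2,
      6 * (α * V) < wt μ (Cl r k ρ τ p) → ∃ z : Fin (r * k) → Fin 2,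
        α * V ≤ wt μ (Nd z (lt r k ρ τ)) ∧ τ ≤ lev (cls r k ρ z) p ∧
        wt μ (Cl r k ρ τ p \ Nd z (lt r k ρ τ)) ≤ 2 * (α * V) := by
  obtain ⟨ρ, hρ, hw⟩ := exists_res (D := D) hr hγ0 hγ2
  refine ⟨ρ, hρ, hw, fun τ hτ p hp => ?_⟩
  obtain ⟨z, hz, hzp⟩ := vis_aux hr hγ0 hα h12 h0 hV0 H hρ hw τ hτ p hp
  exact ⟨z, hz, hzp, vis_L hγ0 hα h12 h0 hV0 H hρ hw hτ hz hzp⟩

end Pool.Agent.RTY
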